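import Pool.Agent.helper32.DH.LFT
import Pool.Agent.helper44.EX.Spec

/-!
# Almost constancy of the line field near `0` (section 5 of the closing argument)
-/

set_option autoImplicit false

open Complex Metric Set Filter Topology MeasureTheory
open Pool.Agent.helper98.ILF Pool.Agent.helper16.Multibrot

noncomputable section

namespace HY

/-- invariance of a line field. -/
def Inv (n : ℕ) (c : ℂ) (μ : ℂ → ℂ) : Prop :=
  ∀ᵐ z : ℂ, μ (fz n c z) * (starRingEnd ℂ) (deriv (fz n c) z) / deriv (fz n c) z = μ z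

theorem CST_diff (n : ℕ) (c : ℂ) : Differentiable ℂ (fz n c) := by
  unfold fz
  fun_prop

theorem CST_diffit (n : ℕ) (c : ℂ) (t : ℕ) : Differentiable ℂ ((fz n c)^[t]) := (CST_diff n c).iterate t

/-- the pull backs of an invariant field by `F = f^t ∘ g` and by `g` agree. -/
theorem LFT_inv (hNUL : EX.NUL_stmt) (hITR : EX.ITR_stmt) {n : ℕ} {c : ℂ} {μ : ℂ → ℂ} (hn : 1 ≤ n) (hinv : Inv n c μ)
    {Ω : Set ℂ} (hΩ : IsOpen Ω) {g F : ℂ → ℂ} {t : ℕ} (hg : DifferentiableOn ℂ g Ω) (hg0 : ∀ y ∈ Ω, deriv g y ≠ 0)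
    (hF : ∀ y ∈ Ω, (fz n c)^[t] (g y) = F y) : ∀ᵐ y : ℂ, y ∈ Ω → PBF F μ y = PBF g μ y := by
  have h1 := hITR n c μ hn hinv t
  have h2 : volume {z : ℂ | ¬ (μ ((EX.ff n c)^[t] z) * (starRingEnd ℂ) (deriv ((EX.ff n c)^[t]) z) /
    deriv ((EX.ff n c)^[t]) z = μ z)} = 0 := h1
  have h3 := hNUL g Ω _ hΩ hg hg0 h2
  rw [ae_iff]
  refine measure_mono_null ?_ h3
  intro y hy
  simp only [mem_ofPred_eq, Classical.not_imp] at hy ⊢
  obtain ⟨hyΩ, hne⟩ := hy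
  refine ⟨hyΩ, fun heq => hne ?_⟩
  have hd : deriv F y = deriv ((fz n c)^[t]) (g y) * deriv g y := by
    have e1 : F =ᶠ[𝓝 y] fun y => (fz n c)^[t] (g y) := by
      filter_upwards [hΩ.mem_nhds hyΩ] with z hz
      exact (hF z hz).symm
    rw [e1.deriv_eq]
    have hgy : DifferentiableAt ℂ g y := (hg y hyΩ).differentiableAt (hΩ.mem_nhds hyΩ)
    exact ((CST_diffit n c t).differentiableAt.hasDerivAt.comp y hgy.hasDerivAt).deriv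
  have heq' : μ ((fz n c)^[t] (g y)) * (starRingEnd ℂ) (deriv ((fz n c)^[t]) (g y)) / deriv ((fz n c)^[t]) (g y) = μ (g y) := heq
  unfold PBF
  rw [hd, ← heq', ← hF y hyΩ, map_mul]
  by_cases h0 : deriv ((fz n c)^[t]) (g y) = 0
  · simp [h0]
  · have := hg0 y hyΩ
    field_simp

/-- the property of density points used (`EX.DEN_stmt`). -/
def DenAt (μ : ℂ → ℂ) (x : ℂ) : Prop := ∀ K ε : ℝ, 0 < ε →
  ∃ δ > (0 : ℝ), ∀ (p : ℂ) (s : ℝ), 0 < s → s < δ → ‖x - p‖ ≤ K * s → ∫ z in ball p s, ‖μ z - μ x‖ ≤ ε * s ^ 2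

/-- a univalent branch at bounded distance of a density point makes the field nearly constant at the image. -/
theorem CST_one (hKO0 : V3.KO0_stmt) (hKO1 : V3.KO1_stmt) (hKO3 : V3.KO3_stmt) (hNUL : EX.NUL_stmt) (hITR : EX.ITR_stmt)
    {n : ℕ} {c : ℂ} {μ : ℂ → ℂ} (hn : 1 ≤ n) (hinv : Inv n c μ) (hm : Measurable μ) (hμ : ∀ z, ‖μ z‖ ≤ 1)
    {x : ℂ} (hx : ‖μ x‖ = 1) (hden : DenAt μ x) (K : ℝ) : ∀ ε > (0 : ℝ), ∃ s : ℝ, 0 < s ∧ s ≤ 1 / 2 ∧ ∃ δ > (0 : ℝ),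
    ∀ (F g : ℂ → ℂ) (t : ℕ), DifferentiableOn ℂ F UD → InjOn F UD → DifferentiableOn ℂ g UD → InjOn g UD →
      (∀ y ∈ UD, (fz n c)^[t] (g y) = F y) → ‖g 0 - x‖ ≤ K * ‖deriv g 0‖ → ‖deriv g 0‖ < δ →
      ∃ e : ℂ, ‖e‖ = 1 ∧ ∫ z in ball (F 0) (s * ‖deriv F 0‖), ‖μ z - e‖ ≤ ε * (s * ‖deriv F 0‖) ^ 2 := by
  obtain ⟨C1, hC1, hpull⟩ := LFT_pull hKO0 hKO3
  obtain ⟨C2, hC2, hpush⟩ := LFT_push hKO0 hKO1 hKO3
  intro ε hε
  have hC1p : 0 < C1 := by linarith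
  have hC2p : 0 < C2 := by linarith
  set s1 : ℝ := min (1 / 2) (ε / (4 * C1 * C2 ^ 3)) with hs1
  have hs1p : 0 < s1 := lt_min (by norm_num) (by positivity)
  have hs1h : s1 ≤ 1 / 2 := min_le_left _ _
  have hs1e : s1 * (4 * C1 * C2 ^ 3) ≤ ε := by
    rw [← le_div_iff₀ (by positivity)]; exact min_le_right _ _
  set ε1 : ℝ := ε / (2 * C1 ^ 3 * C2 ^ 3) with hε1
  have hε1p : 0 < ε1 := by positivity
  obtain ⟨δ, hδ, hD⟩ := hden (K / (C1 * s1)) ε1 hε1p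
  refine ⟨s1 / C2, by positivity, ?_, δ / (C1 * s1), by positivity, ?_⟩
  · rw [div_le_iff₀ hC2p]; nlinarith
  intro F g t hF hFi hg hgi hFg hgx hgδ
  have h00 : (0 : ℂ) ∈ UD := by simp [UD]
  have hg0 := hKO0 g UD isOpen_ball hg hgi
  have hF0 := hKO0 F UD isOpen_ball hF hFi
  have hgp : 0 < ‖deriv g 0‖ := norm_pos_iff.2 (hg0 0 h00)
  have hFp : 0 < ‖deriv F 0‖ := norm_pos_iff.2 (hF0 0 h00)
  set u0 : ℂ := (starRingEnd ℂ) (deriv g 0) / deriv g 0 with hu0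
  have hu0n : ‖u0‖ = 1 := LFT_unit (hg0 0 h00)
  have h1 := hpull g μ (μ x) s1 hg hgi hm hμ hx hs1p hs1h
  have h2 := hD (g 0) (C1 * s1 * ‖deriv g 0‖) (by positivity) (by
    rw [lt_div_iff₀ (by positivity)] at hgδ
    linarith) (by
    rw [norm_sub_rev, show K / (C1 * s1) * (C1 * s1 * ‖deriv g 0‖) = K * ‖deriv g 0‖ by field_simp]
    exact hgx)
  have h3 : ∫ y in ball 0 s1, ‖PBF g μ y - μ x * u0‖ ≤ ε1 * C1 ^ 3 * s1 ^ 2 + C1 * s1 ^ 3 := by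
    refine h1.trans ?_
    have : C1 / ‖deriv g 0‖ ^ 2 * (∫ z in ball (g 0) (C1 * s1 * ‖deriv g 0‖), ‖μ z - μ x‖) ≤ C1 / ‖deriv g 0‖ ^ 2 * (ε1 * (C1 * s1 * ‖deriv g 0‖) ^ 2) := by
      gcongr
    refine (add_le_add_left this _).trans (le_of_eq ?_)
    field_simp
  have h4 := LFT_inv hNUL hITR hn hinv (isOpen_ball (x := (0 : ℂ)) (ε := 1)) hg hg0 hFg
  have h5 : ∫ y in ball 0 s1, ‖PBF F μ y - μ x * u0‖ = ∫ y in ball 0 s1, ‖PBF g μ y - μ x * u0‖ := by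
    refine setIntegral_congr_ae measurableSet_ball ?_
    filter_upwards [h4] with y hy hys
    rw [hy (ball_subset_ball (by linarith) hys)]
  have h6 := hpush F μ (μ x * u0) s1 hF hFi hm hμ (by rw [norm_mul, hx, hu0n, one_mul]) hs1p hs1h
  refine ⟨μ x * u0 * (deriv F 0 / (starRingEnd ℂ) (deriv F 0)), ?_, ?_⟩
  · rw [norm_mul, norm_mul, hx, hu0n, norm_div, Complex.norm_conj, div_self hFp.ne']
    norm_num
  · rw [show s1 / C2 * ‖deriv F 0‖ = s1 * ‖deriv F 0‖ / C2 by ring]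
    refine h6.trans ?_
    rw [h5]
    have h7 : (∫ y in ball 0 s1, ‖PBF g μ y - μ x * u0‖) + s1 ^ 3 ≤ s1 ^ 2 * (ε / C2 ^ 3) := by
      have a1 : ε1 * C1 ^ 3 = ε / (2 * C2 ^ 3) := by rw [hε1]; field_simp
      have a2 : C1 * s1 + s1 ≤ ε / (2 * C2 ^ 3) := by
        rw [le_div_iff₀ (by positivity)]
        have : (C1 * s1 + s1) * (2 * C2 ^ 3) ≤ s1 * (4 * C1 * C2 ^ 3) := by
          have : s1 * C2 ^ 3 ≤ s1 * C2 ^ 3 * C1 := le_mul_of_one_le_right (by positivity) hC1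
          nlinarith
        linarith
      calc (∫ y in ball 0 s1, ‖PBF g μ y - μ x * u0‖) + s1 ^ 3 ≤ ε1 * C1 ^ 3 * s1 ^ 2 + C1 * s1 ^ 3 + s1 ^ 3 := by linarith
        _ = s1 ^ 2 * (ε1 * C1 ^ 3 + (C1 * s1 + s1)) := by ring
        _ ≤ s1 ^ 2 * (ε / (2 * C2 ^ 3) + ε / (2 * C2 ^ 3)) := by
          rw [a1]
          gcongr
        _ = _ := by field_simp; ring
    calc C2 * ‖deriv F 0‖ ^ 2 * ((∫ y in ball 0 s1, ‖PBF g μ y - μ x * u0‖) + s1 ^ 3)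
        ≤ C2 * ‖deriv F 0‖ ^ 2 * (s1 ^ 2 * (ε / C2 ^ 3)) := by gcongr
      _ = _ := by field_simp

end HY
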