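import Pool.Agent.helper32.DH.CST

/-!
# The contradiction at the critical point (section 6 of the closing argument), abstract form
-/

set_option autoImplicit false

open Complex Metric Set Filter Topology MeasureTheory
open Pool.Agent.helper98.ILF Pool.Agent.helper16.Multibrot

noncomputable section

namespace HY

/-- the field is nearly constant on all small discs about `0`. -/
def NCs (μ : ℂ → ℂ) : Prop := ∀ ε > (0 : ℝ), ∃ l₀ > (0 : ℝ), ∀ l : ℝ, 0 < l → l < l₀ →
  ∃ e : ℂ, ‖e‖ = 1 ∧ ∫ z in ball 0 l, ‖μ z - e‖ ≤ ε * l ^ 2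

/-- the model `conj (y^m) / y^m`. -/
def qm (m : ℕ) (y : ℂ) : ℂ := (starRingEnd ℂ) (y ^ m) / y ^ m

theorem qm_meas (m : ℕ) : Measurable (qm m) := by
  unfold qm
  exact (Complex.continuous_conj.measurable.comp (measurable_id.pow_const m)).div (measurable_id.pow_const m)

theorem qm_norm_le (m : ℕ) (y : ℂ) : ‖qm m y‖ ≤ 1 := by
  unfold qm
  by_cases h : y ^ m = 0
  · simp [h]
  · rw [LFT_unit h]

theorem ENA_rot {m : ℕ} {η : ℂ} (hη : η ^ m = I) {y : ℂ} (_hy : y ≠ 0) : qm m (η * y) = - qm m y := by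
  unfold qm
  rw [mul_pow, hη, map_mul, Complex.conj_I]
  have hI : I ≠ 0 := I_ne_zero
  by_cases h : y ^ m = 0
  · simp [h]
  · field_simp

/-- on two balls `B` and `η B` the field `e' q` is not close to a constant. -/
theorem ENA_two {m : ℕ} {η e e' p : ℂ} {r : ℝ} (hη : η ^ m = I) (hη1 : ‖η‖ = 1) (he' : ‖e'‖ = 1) (he : ‖e‖ ≤ 1) (hr : 0 < r) (hrp : r < ‖p‖) :
    2 * (Real.pi * r ^ 2) ≤ (∫ y in ball p r, ‖e - e' * qm m y‖) + ∫ y in ball (η * p) r, ‖e - e' * qm m y‖ := by
  have hη0 : η ≠ 0 := by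
    intro h; rw [h, norm_zero] at hη1; exact zero_ne_one hη1
  have hhm : Measurable (fun z => ‖e - e' * qm m z‖) := (((qm_meas m).const_mul e').const_sub e).norm
  have hhb : ∀ z, 0 ≤ ‖e - e' * qm m z‖ ∧ ‖e - e' * qm m z‖ ≤ 2 := fun z => ⟨norm_nonneg _, by
    refine (norm_sub_le _ _).trans ?_
    rw [norm_mul, he', one_mul]
    have := qm_norm_le m z
    linarith⟩
  have hcv := LFT_cv (fun y => η * y) (fun z => ‖e - e' * qm m z‖) (ball p r) (ball (η * p) r) 1 one_pos isOpen_ball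
    measure_ball_lt_top.ne hhm hhb ((differentiable_id.const_mul η).differentiableOn) (fun a _ b _ hab => mul_left_cancel₀ hη0 hab)
    (fun y hy => by
      rw [mem_ball, dist_eq_norm] at hy ⊢
      rw [← mul_sub, norm_mul, hη1, one_mul]; exact hy) (fun y _ => by
      have : deriv (fun y => η * y) y = η := by
        simp
      rw [this, hη1])
  rw [one_pow, div_one, one_mul] at hcv
  have hfin : IsFiniteMeasure (volume.restrict (ball p r)) := ⟨by rw [Measure.restrict_apply_univ]; exact measure_ball_lt_top⟩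
  have i1 : IntegrableOn (fun z => ‖e - e' * qm m z‖) (ball p r) := by
    refine Integrable.mono' (integrable_const (2 : ℝ)) hhm.aestronglyMeasurable ?_
    refine Eventually.of_forall fun z => ?_
    rw [Real.norm_eq_abs, abs_of_nonneg (hhb _).1]
    exact (hhb _).2
  have i2 : IntegrableOn (fun z => ‖e - e' * qm m (η * z)‖) (ball p r) := by
    have : Measurable (fun z => ‖e - e' * qm m (η * z)‖) := hhm.comp (measurable_const_mul η)
    refine Integrable.mono' (integrable_const (2 : ℝ)) this.aestronglyMeasurable ?_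
    refine Eventually.of_forall fun z => ?_
    rw [Real.norm_eq_abs, abs_of_nonneg (hhb _).1]
    exact (hhb _).2
  have h1 : ∫ y in ball p r, (2 : ℝ) ≤ ∫ y in ball p r, (‖e - e' * qm m y‖ + ‖e - e' * qm m (η * y)‖) := by
    refine setIntegral_mono_on (integrable_const _) (i1.add i2) measurableSet_ball ?_
    intro y hy
    have hy0 : y ≠ 0 := by
      intro h
      rw [h, mem_ball, dist_eq_norm, zero_sub, norm_neg] at hy
      linarith
    rw [ENA_rot hη hy0]
    have hq : ‖qm m y‖ = 1 := by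
      unfold qm
      exact LFT_unit (pow_ne_zero _ hy0)
    have h2 : ‖(e - e' * qm m y) - (e - e' * (- qm m y))‖ = 2 := by
      rw [show (e - e' * qm m y) - (e - e' * (- qm m y)) = - (2 * (e' * qm m y)) by ring, norm_neg, norm_mul, norm_mul, he', hq]
      norm_num
    have h3 := norm_sub_le (e - e' * qm m y) (e - e' * (- qm m y))
    linarith
  rw [integral_add i1 i2, integral_const, smul_eq_mul] at h1
  have hvol : (volume.restrict (ball p r)).real univ = Real.pi * r ^ 2 := by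
    rw [measureReal_restrict_apply_univ, Measure.real, Complex.volume_ball, ENNReal.toReal_mul, ENNReal.toReal_pow, ENNReal.toReal_ofReal hr.le]
    simp [mul_comm]
  rw [hvol] at h1
  linarith

/-- powers are injective on small balls away from `0`. -/
theorem ENA_inj {n : ℕ} (hn : 2 ≤ n) {p : ℂ} {r : ℝ} (hr : 0 < r) (hrp : 3 * n * r ≤ ‖p‖) : InjOn (fun y : ℂ => y ^ n) (ball p r) := by
  have hn0 : (0 : ℝ) < n := by exact_mod_cast (by omega : 0 < n)
  have hn1 : (1 : ℝ) ≤ n := by exact_mod_cast (by omega : 1 ≤ n)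
  have hp : 0 < ‖p‖ := by
    have : 0 < 3 * n * r := by positivity
    linarith
  intro a ha b hb hab
  by_contra hne
  simp only at hab
  have hn' : n ≠ 0 := by omega
  have hbn : b ≠ 0 := by
    intro h
    rw [h, mem_ball, dist_eq_norm, zero_sub, norm_neg] at hb
    nlinarith
  -- (a/b)^n = 1
  set ω := a / b with hω
  have hω1 : ω ^ n = 1 := by
    rw [hω, div_pow, hab, div_self (pow_ne_zero _ hbn)]
  have hωne : ω ≠ 1 := by
    intro h
    rw [hω, div_eq_one_iff_eq hbn] at h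
    exact hne h
  -- |ω - 1| ≥ 1/n : sum of powers
  have hωn : ‖ω‖ = 1 := by
    have : ‖ω‖ ^ n = 1 := by rw [← norm_pow, hω1, norm_one]
    exact (pow_eq_one_iff_of_nonneg (norm_nonneg _) hn').1 this
  have hsum : ∑ i ∈ Finset.range n, ω ^ i = 0 := by
    have := mul_geom_sum ω n
    rw [hω1, sub_self] at this
    rcases mul_eq_zero.1 this with h | h
    · exact absurd (sub_eq_zero.1 h) hωne
    · exact h
  have hlow : (1 : ℝ) ≤ n * ‖ω - 1‖ := by
    -- ‖ω^i - 1‖ ≤ i ‖ω - 1‖, sum of (1 - ω^i) = n, i < n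
    have h1 : ∀ i : ℕ, ‖ω ^ i - 1‖ ≤ i * ‖ω - 1‖ := by
      intro i
      induction i with
      | zero => simp
      | succ i ih =>
        have : ω ^ (i + 1) - 1 = ω * (ω ^ i - 1) + (ω - 1) := by ring
        rw [this]
        refine (norm_add_le _ _).trans ?_
        rw [norm_mul, hωn, one_mul]
        push_cast
        linarith
    have h2 : (n : ℂ) = ∑ i ∈ Finset.range n, (1 - ω ^ i) := by
      rw [Finset.sum_sub_distrib, hsum]; simp
    have h3 : (n : ℝ) ≤ ∑ i ∈ Finset.range n, (n * ‖ω - 1‖) := by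
      calc (n : ℝ) = ‖(n : ℂ)‖ := by simp
        _ = ‖∑ i ∈ Finset.range n, (1 - ω ^ i)‖ := by rw [← h2]
        _ ≤ ∑ i ∈ Finset.range n, ‖1 - ω ^ i‖ := norm_sum_le _ _
        _ ≤ _ := by
          refine Finset.sum_le_sum fun i hi => ?_
          rw [norm_sub_rev]
          refine (h1 i).trans ?_
          have : (i : ℝ) ≤ n := by exact_mod_cast (Finset.mem_range.1 hi).le
          gcongr
    rw [Finset.sum_const, Finset.card_range, nsmul_eq_mul] at h3
    have := le_of_mul_le_mul_left (by linarith : (n : ℝ) * 1 ≤ n * (n * ‖ω - 1‖)) hn0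
    exact this
  have hab2 : ‖a - b‖ = ‖ω - 1‖ * ‖b‖ := by
    rw [← norm_mul, hω, sub_mul, div_mul_cancel₀ _ hbn, one_mul]
  have hd : ‖a - b‖ < 2 * r := by
    rw [mem_ball, dist_eq_norm] at ha hb
    calc ‖a - b‖ = ‖(a - p) - (b - p)‖ := by congr 1; ring
      _ ≤ ‖a - p‖ + ‖b - p‖ := norm_sub_le _ _
      _ < _ := by linarith
  have hbl : ‖p‖ - r < ‖b‖ := by
    rw [mem_ball, dist_eq_norm] at hb
    have := norm_sub_norm_le p b
    rw [norm_sub_rev] at this
    linarith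
  -- contradiction
  have h4 : (1 : ℝ) * ‖b‖ ≤ n * ‖a - b‖ := by
    rw [hab2]
    have := mul_le_mul_of_nonneg_right hlow (norm_nonneg b)
    linarith
  have h5 : n * ‖a - b‖ < n * (2 * r) := by gcongr
  nlinarith

/-- THE CONTRADICTION at the critical point. -/
theorem ENA (hKO0 : V3.KO0_stmt) (hKO3 : V3.KO3_stmt) (hNUL : EX.NUL_stmt) (hITR : EX.ITR_stmt)
    {n : ℕ} {c : ℂ} {μ : ℂ → ℂ} (hn : 2 ≤ n) (hinv : Inv n c μ) (hm : Measurable μ) (hμ : ∀ z, ‖μ z‖ ≤ 1)
    (hNC : NCs μ) (K : ℝ) (hK : 0 ≤ K)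
    (H : ∀ δ > (0 : ℝ), ∃ (t : ℕ) (X F : ℂ → ℂ), DifferentiableOn ℂ X UD ∧ InjOn X UD ∧ X 0 = 0 ∧ DifferentiableOn ℂ F UD ∧ InjOn F UD ∧
      (∀ y ∈ UD, (fz n c)^[t] (X y) = F (y ^ n)) ∧ ‖deriv X 0‖ < δ ∧ ‖deriv F 0‖ < δ ∧ ‖F 0‖ ≤ K * ‖deriv F 0‖) : False := by
  obtain ⟨C1, hC1, hpull⟩ := LFT_pull hKO0 hKO3
  obtain ⟨C0, hC0, hdist⟩ := LFT_dist hKO0 hKO3
  have hC1p : 0 < C1 := by linarith
  have hC0p : 0 < C0 := by linarith
  have hn0 : (0 : ℝ) < n := by exact_mod_cast (by omega : 0 < n)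
  have hn2 : (2 : ℝ) ≤ n := by exact_mod_cast hn
  obtain ⟨η, hη⟩ := IsAlgClosed.exists_pow_nat_eq I (show 0 < n - 1 by omega)
  have hη1 : ‖η‖ = 1 := by
    have : ‖η‖ ^ (n - 1) = 1 := by rw [← norm_pow, hη, Complex.norm_I]
    exact (pow_eq_one_iff_of_nonneg (norm_nonneg _) (by omega)).1 this
  have hpi : 0 < Real.pi := Real.pi_pos
  -- choice of s
  obtain ⟨s, hs0, hs1, hs2, hs3⟩ : ∃ s : ℝ, 0 < s ∧ s ≤ 1 / 2 ∧ s * (64 * n ^ 2 * C1) ≤ Real.pi ∧ C0 * s ≤ 1 / 4 := by
    refine ⟨min (1 / 2) (min (Real.pi / (64 * n ^ 2 * C1)) (1 / (4 * C0))), ?_, min_le_left _ _, ?_, ?_⟩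
    · exact lt_min (by norm_num) (lt_min (by positivity) (by positivity))
    · rw [← le_div_iff₀ (by positivity)]
      exact (min_le_right _ _).trans (min_le_left _ _)
    · have : min (1 / 2) (min (Real.pi / (64 * n ^ 2 * C1)) (1 / (4 * C0))) ≤ 1 / (4 * C0) :=
        (min_le_right _ _).trans (min_le_right _ _)
      rw [le_div_iff₀ (by positivity)] at this
      linarith
  set r : ℝ := s / (4 * n) with hr
  have hr0 : 0 < r := by positivity
  have hr8 : r ≤ s / 8 := by
    rw [hr]; gcongr; linarith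
  set Q : ℝ := ((K + C0) * C0) ^ 2 / (n * (s / 2) ^ (n - 1)) ^ 2 with hQ
  have hQ0 : 0 ≤ Q := by positivity
  set ε : ℝ := Real.pi * r ^ 2 / (4 * (C1 ^ 3 * s ^ 2 + Q)) with hε
  have hεp : 0 < ε := by positivity
  obtain ⟨l₀, hl₀, hl⟩ := hNC ε hεp
  obtain ⟨t, X, F, hX, hXi, hX0, hF, hFi, hrel, hXδ, hFδ, hFK⟩ := H (min (l₀ / (C1 * s)) (l₀ / (K + C0))) (lt_min (by positivity) (by positivity))
  have h00 : (0 : ℂ) ∈ UD := by simp [UD]
  have hXne := hKO0 X UD isOpen_ball hX hXi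
  have hXp : 0 < ‖deriv X 0‖ := norm_pos_iff.2 (hXne 0 h00)
  obtain ⟨hF0, hFd⟩ := hdist F hF hFi
  have hFp : 0 < ‖deriv F 0‖ := norm_pos_iff.2 hF0
  -- (a)
  obtain ⟨e1', he1', hI1⟩ := hl (C1 * s * ‖deriv X 0‖) (by positivity) (by
    have := hXδ.trans_le (min_le_left _ _)
    rw [lt_div_iff₀ (by positivity)] at this
    linarith)
  set e1 : ℂ := e1' * ((starRingEnd ℂ) (deriv X 0) / deriv X 0) with he1
  have he1n : ‖e1‖ = 1 := by
    rw [he1, norm_mul, he1', LFT_unit (hXne 0 h00), one_mul]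
  have hA : ∫ y in ball 0 s, ‖PBF X μ y - e1‖ ≤ ε * C1 ^ 3 * s ^ 2 + C1 * s ^ 3 := by
    refine (hpull X μ e1' s hX hXi hm hμ he1' hs0 hs1).trans ?_
    rw [hX0]
    have : C1 / ‖deriv X 0‖ ^ 2 * (∫ z in ball 0 (C1 * s * ‖deriv X 0‖), ‖μ z - e1'‖) ≤ C1 / ‖deriv X 0‖ ^ 2 * (ε * (C1 * s * ‖deriv X 0‖) ^ 2) := by
      gcongr
    refine (add_le_add_left this _).trans (le_of_eq ?_)
    field_simp
  -- (b)
  set l' : ℝ := (K + C0) * ‖deriv F 0‖ with hl'
  have hl'0 : 0 < l' := by positivity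
  obtain ⟨e2, he2, hI2⟩ := hl l' hl'0 (by
    have := hFδ.trans_le (min_le_right _ _)
    rw [lt_div_iff₀ (by positivity)] at this
    rw [hl']; linarith)
  set u0 : ℂ := (starRingEnd ℂ) (deriv F 0) / deriv F 0 with hu0
  have hu0n : ‖u0‖ = 1 := LFT_unit hF0
  -- facts on balls `ball q r` with `‖q‖ = 3s/4`
  have hball : ∀ q : ℂ, ‖q‖ = 3 * s / 4 → ∀ y ∈ ball q r, s / 2 ≤ ‖y‖ ∧ ‖y‖ < s := by
    intro q hq y hy
    rw [mem_ball, dist_eq_norm] at hy
    constructor
    · have := norm_sub_norm_le q y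
      rw [norm_sub_rev] at this
      linarith
    · have : ‖y‖ ≤ ‖q‖ + ‖y - q‖ := by
        calc ‖y‖ = ‖q + (y - q)‖ := by congr 1; ring
          _ ≤ _ := norm_add_le _ _
      linarith
  have hpow : ∀ y : ℂ, ‖y‖ < s → ‖y ^ n‖ ≤ s := by
    intro y hy
    rw [norm_pow]
    calc ‖y‖ ^ n ≤ ‖y‖ ^ 1 := pow_le_pow_of_le_one (norm_nonneg _) (by linarith) (by omega)
      _ = ‖y‖ := pow_one _
      _ ≤ s := hy.le
  have hderS : ∀ y : ℂ, ‖y‖ < s → HasDerivAt (fun y => F (y ^ n)) (deriv F (y ^ n) * (n * y ^ (n - 1))) y := by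
    intro y hy
    have hyn := hpow y hy
    have hyU : y ^ n ∈ UD := by rw [UD, mem_ball_zero_iff]; linarith
    have h1 : HasDerivAt F (deriv F (y ^ n)) (y ^ n) := (hF.differentiableAt (isOpen_ball.mem_nhds hyU)).hasDerivAt
    exact h1.comp y (hasDerivAt_pow n y)
  have hinvae : ∀ᵐ y : ℂ, y ∈ UD → PBF (fun y => F (y ^ n)) μ y = PBF X μ y :=
    LFT_inv hNUL hITR (by omega) hinv (isOpen_ball (x := (0 : ℂ)) (ε := 1)) hX hXne hrel
  have hXm : ∀ B : Set ℂ, MeasurableSet B → B ⊆ ball 0 s → AEMeasurable X (volume.restrict B) := fun B hB hBs =>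
    ((hX.mono (hBs.trans (ball_subset_ball (by linarith)))).continuousOn.aemeasurable hB)
  have hB : ∀ q : ℂ, ‖q‖ = 3 * s / 4 → ∫ y in ball q r, ‖e1 - e2 * u0 * qm (n - 1) y‖ ≤
      (ε * C1 ^ 3 * s ^ 2 + C1 * s ^ 3) + ε * Q + C0 * s * (Real.pi * r ^ 2) := by
    intro q hq
    have hsub : ball q r ⊆ ball 0 s := fun y hy => by
      rw [mem_ball_zero_iff]; exact (hball q hq y hy).2
    have hhm : Measurable (fun z => ‖μ z - e2‖) := (hm.sub_const e2).norm
    have hhb : ∀ z, 0 ≤ ‖μ z - e2‖ ∧ ‖μ z - e2‖ ≤ 2 := fun z => ⟨norm_nonneg _, by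
      refine (norm_sub_le _ _).trans ?_
      have := hμ z
      linarith⟩
    have hSd : DifferentiableOn ℂ (fun y => F (y ^ n)) (ball q r) := fun y hy =>
      (hderS y (hball q hq y hy).2).differentiableAt.differentiableWithinAt
    have hmm : 0 < ‖deriv F 0‖ / C0 * (n * (s / 2) ^ (n - 1)) := by positivity
    have hcv := LFT_cv (fun y => F (y ^ n)) (fun z => ‖μ z - e2‖) (ball q r) (ball 0 l') (‖deriv F 0‖ / C0 * (n * (s / 2) ^ (n - 1))) hmm
      isOpen_ball measure_ball_lt_top.ne hhm hhb hSd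
      (fun a ha b hb hab => by
        have ha' := hpow a (hball q hq a ha).2
        have hb' := hpow b (hball q hq b hb).2
        have h1 : a ^ n = b ^ n := hFi (by rw [UD, mem_ball_zero_iff]; linarith) (by rw [UD, mem_ball_zero_iff]; linarith) hab
        refine ENA_inj hn hr0 ?_ ha hb h1
        rw [hq, hr]
        apply le_of_eq
        field_simp)
      (fun y hy => by
        have hy' := hpow y (hball q hq y hy).2
        rw [mem_ball_zero_iff]
        have h1 := (hFd (y ^ n) (by linarith)).2.2.2.1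
        have h2 : ‖F (y ^ n)‖ ≤ ‖F (y ^ n) - F 0‖ + ‖F 0‖ := by
          calc ‖F (y ^ n)‖ = ‖(F (y ^ n) - F 0) + F 0‖ := by congr 1; ring
            _ ≤ _ := norm_add_le _ _
        have h3 : C0 * ‖y ^ n‖ * ‖deriv F 0‖ ≤ C0 * s * ‖deriv F 0‖ := by gcongr
        have h4 : C0 * s * ‖deriv F 0‖ < C0 * 1 * ‖deriv F 0‖ := by
          have : s < 1 := by linarith
          gcongr
        rw [hl']
        nlinarith)
      (fun y hy => by
        obtain ⟨hy1, hy2⟩ := hball q hq y hy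
        have hy' := hpow y hy2
        rw [(hderS y hy2).deriv, norm_mul, norm_mul, norm_pow]
        have h1 := (hFd (y ^ n) (by linarith)).2.1
        have h2 : (s / 2) ^ (n - 1) ≤ ‖y‖ ^ (n - 1) := by gcongr
        have h3 : ‖(n : ℂ)‖ = n := by simp
        rw [h3]
        gcongr)
    have hb2 : ∫ y in ball q r, ‖μ (F (y ^ n)) - e2‖ ≤ ε * Q := by
      refine hcv.trans ?_
      have h1 : 1 / (‖deriv F 0‖ / C0 * (n * (s / 2) ^ (n - 1))) ^ 2 * (∫ z in ball 0 l', ‖μ z - e2‖) ≤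
          1 / (‖deriv F 0‖ / C0 * (n * (s / 2) ^ (n - 1))) ^ 2 * (ε * l' ^ 2) := by gcongr
      refine h1.trans (le_of_eq ?_)
      rw [hQ, hl']
      field_simp
    have hfin : IsFiniteMeasure (volume.restrict (ball q r)) := ⟨by rw [Measure.restrict_apply_univ]; exact measure_ball_lt_top⟩
    have hm1 : AEStronglyMeasurable (fun y => ‖PBF X μ y - e1‖) (volume.restrict (ball 0 s)) := by
      have hd : Measurable (deriv X) := measurable_deriv X
      have h5 : AEMeasurable (fun y => μ (X y)) (volume.restrict (ball 0 s)) := hm.comp_aemeasurable (hXm _ measurableSet_ball Subset.rfl)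
      have h6 : AEMeasurable (fun y => (starRingEnd ℂ) (deriv X y)) (volume.restrict (ball 0 s)) :=
        (Complex.continuous_conj.measurable.comp hd).aemeasurable
      have h7 : AEMeasurable (fun y => PBF X μ y) (volume.restrict (ball 0 s)) := (h5.mul h6).div hd.aemeasurable
      exact ((h7.sub_const e1).norm).aestronglyMeasurable
    have hfin2 : IsFiniteMeasure (volume.restrict (ball (0 : ℂ) s)) := ⟨by rw [Measure.restrict_apply_univ]; exact measure_ball_lt_top⟩
    have i1 : IntegrableOn (fun y => ‖PBF X μ y - e1‖) (ball 0 s) := by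
      refine Integrable.mono' (integrable_const (2 : ℝ)) hm1 ?_
      refine Eventually.of_forall fun z => ?_
      rw [Real.norm_eq_abs, abs_of_nonneg (norm_nonneg _)]
      refine (norm_sub_le _ _).trans ?_
      have := PBF_norm_le (X := X) hμ z
      linarith
    have i2 : IntegrableOn (fun y => ‖μ (F (y ^ n)) - e2‖) (ball q r) := by
      have hS : AEMeasurable (fun y => F (y ^ n)) (volume.restrict (ball q r)) := hSd.continuousOn.aemeasurable measurableSet_ball
      refine Integrable.mono' (integrable_const (2 : ℝ)) (hhm.comp_aemeasurable hS).aestronglyMeasurable ?_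
      refine Eventually.of_forall fun z => ?_
      rw [Real.norm_eq_abs, abs_of_nonneg (norm_nonneg _)]
      exact (hhb _).2
    have i1' := i1.mono_set hsub
    have hle : ∫ y in ball q r, ‖e1 - e2 * u0 * qm (n - 1) y‖ ≤ ∫ y in ball q r, ((‖PBF X μ y - e1‖ + ‖μ (F (y ^ n)) - e2‖) + C0 * s) := by
      refine integral_mono_of_nonneg (Eventually.of_forall fun z => norm_nonneg _) ((i1'.add i2).add (integrable_const _)) ?_
      rw [EventuallyLE, ae_restrict_iff' measurableSet_ball]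
      filter_upwards [hinvae] with y hy hyB
      obtain ⟨hy1, hy2⟩ := hball q hq y hyB
      have hy' := hpow y hy2
      have hyU : y ∈ UD := by rw [UD, mem_ball_zero_iff]; linarith
      have hy0 : y ≠ 0 := by
        intro h; rw [h, norm_zero] at hy1; linarith
      obtain ⟨b1, b2, b3, b4, b5⟩ := hFd (y ^ n) (by linarith)
      have hν := hy hyU
      have hqn : ‖qm (n - 1) y‖ = 1 := by
        unfold qm; exact LFT_unit (pow_ne_zero _ hy0)
      have hexp : PBF (fun y => F (y ^ n)) μ y = μ (F (y ^ n)) * ((starRingEnd ℂ) (deriv F (y ^ n)) / deriv F (y ^ n)) * qm (n - 1) y := by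
        unfold PBF qm
        rw [(hderS y hy2).deriv, map_mul, map_mul, Complex.conj_natCast]
        have hnC : (n : ℂ) ≠ 0 := by exact_mod_cast (by omega : n ≠ 0)
        have hyp : y ^ (n - 1) ≠ 0 := pow_ne_zero _ hy0
        field_simp
      rw [← hν, hexp]
      set w : ℂ := (starRingEnd ℂ) (deriv F (y ^ n)) / deriv F (y ^ n) with hw
      have hwn : ‖w‖ = 1 := LFT_unit b1
      have e3 : e1 - e2 * u0 * qm (n - 1) y = -(μ (F (y ^ n)) * w * qm (n - 1) y - e1)
          + ((μ (F (y ^ n)) - e2) * w * qm (n - 1) y + e2 * (w - u0) * qm (n - 1) y) := by ring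
      rw [e3]
      refine (norm_add_le _ _).trans ?_
      rw [norm_neg]
      have e4 : ‖(μ (F (y ^ n)) - e2) * w * qm (n - 1) y + e2 * (w - u0) * qm (n - 1) y‖ ≤ ‖μ (F (y ^ n)) - e2‖ + C0 * s := by
        refine (norm_add_le _ _).trans ?_
        rw [norm_mul, norm_mul, norm_mul, norm_mul, hqn, hwn, he2]
        have : C0 * ‖y ^ n‖ ≤ C0 * s := by gcongr
        linarith
      linarith
    refine hle.trans ?_
    have i3 : IntegrableOn (fun y => ‖PBF X μ y - e1‖ + ‖μ (F (y ^ n)) - e2‖) (ball q r) := i1'.add i2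
    rw [integral_add i3 (integrable_const _), integral_add i1' i2, integral_const, smul_eq_mul]
    have hvol : (volume.restrict (ball q r)).real univ = Real.pi * r ^ 2 := by
      rw [measureReal_restrict_apply_univ, Measure.real, Complex.volume_ball, ENNReal.toReal_mul, ENNReal.toReal_pow, ENNReal.toReal_ofReal hr0.le]
      simp [mul_comm]
    rw [hvol]
    have hA' : ∫ y in ball q r, ‖PBF X μ y - e1‖ ≤ ∫ y in ball 0 s, ‖PBF X μ y - e1‖ :=
      setIntegral_mono_set i1 (Eventually.of_forall fun z => norm_nonneg _) hsub.eventuallyLE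
    linarith
  -- conclusion
  have hq1 : ‖((3 * s / 4 : ℝ) : ℂ)‖ = 3 * s / 4 := by
    rw [Complex.norm_real, Real.norm_of_nonneg (by positivity)]
  have hq2 : ‖η * ((3 * s / 4 : ℝ) : ℂ)‖ = 3 * s / 4 := by rw [norm_mul, hη1, one_mul, hq1]
  have h1 := hB _ hq1
  have h2 := hB _ hq2
  have h3 := ENA_two (m := n - 1) (η := η) (e := e1) (e' := e2 * u0) (p := ((3 * s / 4 : ℝ) : ℂ)) (r := r) hη hη1
    (by rw [norm_mul, he2, hu0n, one_mul]) he1n.le hr0 (by rw [hq1]; linarith)
  have h4 : C1 * s ^ 3 ≤ Real.pi * r ^ 2 / 4 := by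
    rw [hr]
    have : s ^ 2 * (s * (64 * n ^ 2 * C1)) ≤ s ^ 2 * Real.pi := by gcongr
    rw [div_pow, le_div_iff₀ (by norm_num), mul_div_assoc', le_div_iff₀ (by positivity)]
    nlinarith
  have h5 : C0 * s * (Real.pi * r ^ 2) ≤ 1 / 4 * (Real.pi * r ^ 2) := by gcongr
  have h6 : ε * C1 ^ 3 * s ^ 2 + ε * Q = Real.pi * r ^ 2 / 4 := by
    rw [hε]
    have : C1 ^ 3 * s ^ 2 + Q ≠ 0 := by positivity
    field_simp
  have h7 : 0 < Real.pi * r ^ 2 := by positivity
  linarith

end HY
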