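import Pool.Agent.helper52.HY.Spec
import Pool.Agent.helper54.V3.SpecT
import Pool.Agent.helper98.ILF.Density

/-!
# Transport of nearly constant line fields under univalent maps of the disc
-/

set_option autoImplicit false

open Complex Metric Set Filter Topology MeasureTheory
open Pool.Agent.helper98.ILF Pool.Agent.helper16.Multibrot

noncomputable section

namespace HY

/-- the pull back of a line field. -/
def PBF (X μ : ℂ → ℂ) (y : ℂ) : ℂ := μ (X y) * (starRingEnd ℂ) (deriv X y) / deriv X y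

theorem LFT_unit {a : ℂ} (ha : a ≠ 0) : ‖(starRingEnd ℂ) a / a‖ = 1 := by
  rw [norm_div, Complex.norm_conj, div_self (norm_ne_zero_iff.2 ha)]

theorem LFT_lip {a b : ℂ} (ha : a ≠ 0) (hb : b ≠ 0) :
    ‖(starRingEnd ℂ) a / a - (starRingEnd ℂ) b / b‖ ≤ 2 * ‖a - b‖ / ‖b‖ := by
  have h1 : (starRingEnd ℂ) a / a - (starRingEnd ℂ) b / b
      = ((starRingEnd ℂ) a * (b - a) + a * (starRingEnd ℂ) (a - b)) / (a * b) := by
    rw [map_sub]
    field_simp
    ring
  have hap : 0 < ‖a‖ := norm_pos_iff.2 ha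
  have hbp : 0 < ‖b‖ := norm_pos_iff.2 hb
  rw [h1, norm_div, norm_mul, div_le_div_iff₀ (by positivity) hbp]
  have h2 : ‖(starRingEnd ℂ) a * (b - a) + a * (starRingEnd ℂ) (a - b)‖ ≤ 2 * ‖a‖ * ‖a - b‖ := by
    refine (norm_add_le _ _).trans ?_
    rw [norm_mul, norm_mul, Complex.norm_conj, Complex.norm_conj, norm_sub_rev b a]
    linarith
  nlinarith

/-- the pull back of a field with values in the closed disc. -/
theorem PBF_norm_le {X μ : ℂ → ℂ} (hμ : ∀ z, ‖μ z‖ ≤ 1) (y : ℂ) : ‖PBF X μ y‖ ≤ 1 := by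
  unfold PBF
  by_cases h : deriv X y = 0
  · simp [h]
  · rw [mul_div_assoc, norm_mul, LFT_unit h, mul_one]
    exact hμ _

/-- the change of variables. -/
theorem LFT_cv (S : ℂ → ℂ) (h : ℂ → ℝ) (B A : Set ℂ) (m : ℝ) (hm0 : 0 < m) (hB : IsOpen B) (hAf : volume A ≠ ⊤)
    (hm : Measurable h) (hb : ∀ z, 0 ≤ h z ∧ h z ≤ 2) (hd : DifferentiableOn ℂ S B) (hinj : InjOn S B) (hmt : MapsTo S B A)
    (hder : ∀ z ∈ B, m ≤ ‖deriv S z‖) : ∫ z in B, h (S z) ≤ 1 / m ^ 2 * ∫ z in A, h z := by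
  have hBm : MeasurableSet B := hB.measurableSet
  have hfd : ∀ y ∈ B, HasFDerivWithinAt S
      ((ContinuousLinearMap.toSpanSingleton ℂ (deriv S y)).restrictScalars ℝ : ℂ →L[ℝ] ℂ) B y := by
    intro y hy
    exact (((hd.differentiableAt (hB.mem_nhds hy)).hasDerivAt.hasFDerivAt).restrictScalars ℝ).hasFDerivWithinAt
  have h1 := integral_image_eq_integral_abs_det_fderiv_smul volume hBm hfd hinj h
  have hint2 : IntegrableOn h A := by
    refine Measure.integrableOn_of_bounded (M := 2) hAf hm.aestronglyMeasurable ?_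
    refine Eventually.of_forall fun z => ?_
    rw [Real.norm_eq_abs, abs_of_nonneg (hb z).1]
    exact (hb z).2
  have himg : S '' B ⊆ A := hmt.image_subset
  have h2 : ∫ x in S '' B, h x ≤ ∫ x in A, h x :=
    setIntegral_mono_set hint2 (Eventually.of_forall fun z => (hb z).1) himg.eventuallyLE
  have h3 := (integrableOn_image_iff_integrableOn_abs_det_fderiv_smul volume hBm hfd hinj h).1
    (hint2.mono_set himg)
  have h4 : ∫ z in B, h (S z) ≤ ∫ z in B, 1 / m ^ 2 *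
      (|((ContinuousLinearMap.toSpanSingleton ℂ (deriv S z)).restrictScalars ℝ : ℂ →L[ℝ] ℂ).det| •
        h (S z)) := by
    refine integral_mono_of_nonneg (Eventually.of_forall fun z => (hb (S z)).1)
      (h3.const_mul (1 / m ^ 2)) ?_
    rw [EventuallyLE, ae_restrict_iff' hBm]
    refine Eventually.of_forall fun z hz => ?_
    rw [det_smul, abs_of_nonneg (by positivity), smul_eq_mul]
    have h5 := hder z hz
    have h6 := (hb (S z)).1
    have h7 : m ^ 2 ≤ ‖deriv S z‖ ^ 2 := by gcongr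
    have h8 : (1 : ℝ) ≤ 1 / m ^ 2 * ‖deriv S z‖ ^ 2 := by
      rw [div_mul_eq_mul_div, one_mul, le_div_iff₀ (by positivity), one_mul]; exact h7
    calc h (S z) = 1 * h (S z) := (one_mul _).symm
      _ ≤ 1 / m ^ 2 * ‖deriv S z‖ ^ 2 * h (S z) := by gcongr
      _ = _ := by ring
  rw [integral_const_mul] at h4
  rw [← h1] at h4
  refine h4.trans ?_
  gcongr

/-- the change of variables in the other direction. -/
theorem LFT_cv' (S : ℂ → ℂ) (h : ℂ → ℝ) (B A : Set ℂ) (m : ℝ) (hB : IsOpen B) (hBf : volume B ≠ ⊤)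
    (hm : Measurable h) (hb : ∀ z, 0 ≤ h z ∧ h z ≤ 2) (hd : DifferentiableOn ℂ S B) (hinj : InjOn S B) (hmt : A ⊆ S '' B)
    (hder : ∀ z ∈ B, ‖deriv S z‖ ≤ m) : ∫ z in A, h z ≤ m ^ 2 * ∫ z in B, h (S z) := by
  have hBm : MeasurableSet B := hB.measurableSet
  have hfd : ∀ y ∈ B, HasFDerivWithinAt S
      ((ContinuousLinearMap.toSpanSingleton ℂ (deriv S y)).restrictScalars ℝ : ℂ →L[ℝ] ℂ) B y := by
    intro y hy
    exact (((hd.differentiableAt (hB.mem_nhds hy)).hasDerivAt.hasFDerivAt).restrictScalars ℝ).hasFDerivWithinAt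
  have h1 := integral_image_eq_integral_abs_det_fderiv_smul volume hBm hfd hinj h
  have hcomp : AEStronglyMeasurable (fun z => h (S z)) (volume.restrict B) := by
    have hS : AEMeasurable S (volume.restrict B) := (hd.continuousOn.aemeasurable hBm)
    exact (hm.comp_aemeasurable hS).aestronglyMeasurable
  have hint : IntegrableOn (fun z => h (S z)) B := by
    have : IsFiniteMeasure (volume.restrict B) := ⟨by simpa using lt_top_iff_ne_top.2 hBf⟩
    refine Integrable.mono' (integrable_const (2 : ℝ)) hcomp ?_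
    refine Eventually.of_forall fun z => ?_
    rw [Real.norm_eq_abs, abs_of_nonneg (hb _).1]
    exact (hb _).2
  have hnn : ∀ z ∈ B, |((ContinuousLinearMap.toSpanSingleton ℂ (deriv S z)).restrictScalars ℝ : ℂ →L[ℝ] ℂ).det| • h (S z)
      ≤ m ^ 2 * h (S z) := by
    intro z hz
    rw [det_smul, abs_of_nonneg (by positivity), smul_eq_mul]
    have h5 := hder z hz
    have h6 := (hb (S z)).1
    gcongr
  have hdetm : AEStronglyMeasurable (fun z => |((ContinuousLinearMap.toSpanSingleton ℂ (deriv S z)).restrictScalars ℝ : ℂ →L[ℝ] ℂ).det| • h (S z)) (volume.restrict B) := by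
    have h9 : Measurable (deriv S) := measurable_deriv S
    have : (fun z => |((ContinuousLinearMap.toSpanSingleton ℂ (deriv S z)).restrictScalars ℝ : ℂ →L[ℝ] ℂ).det| • h (S z))
        = fun z => ‖deriv S z‖ ^ 2 * h (S z) := by
      funext z
      rw [det_smul, abs_of_nonneg (by positivity), smul_eq_mul]
    rw [this]
    exact ((h9.norm.pow_const 2).aestronglyMeasurable).mul hcomp
  have hint3 : IntegrableOn (fun z => |((ContinuousLinearMap.toSpanSingleton ℂ (deriv S z)).restrictScalars ℝ : ℂ →L[ℝ] ℂ).det| • h (S z)) B := by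
    refine Integrable.mono' (hint.const_mul (m ^ 2)) hdetm ?_
    rw [ae_restrict_iff' hBm]
    refine Eventually.of_forall fun z hz => ?_
    rw [Real.norm_eq_abs, abs_of_nonneg]
    · exact hnn z hz
    · have := (hb (S z)).1
      positivity
  have hintA : IntegrableOn h (S '' B) :=
    (integrableOn_image_iff_integrableOn_abs_det_fderiv_smul volume hBm hfd hinj h).2 hint3
  have h2 : ∫ x in A, h x ≤ ∫ x in S '' B, h x :=
    setIntegral_mono_set hintA (Eventually.of_forall fun z => (hb z).1) hmt.eventuallyLE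
  rw [h1] at h2
  refine h2.trans ?_
  rw [← integral_const_mul]
  refine setIntegral_mono_on hint3 (hint.const_mul _) hBm ?_
  exact hnn

theorem LFT_vol (s : ℝ) (hs : 0 < s) : (volume : Measure ℂ).real (ball 0 s) = Real.pi * s ^ 2 := by
  rw [Measure.real, Complex.volume_ball, ENNReal.toReal_mul, ENNReal.toReal_pow, ENNReal.toReal_ofReal hs.le]
  simp [mul_comm]

/-- the distortion facts used below. -/
theorem LFT_dist (hKO0 : V3.KO0_stmt) (hKO3 : V3.KO3_stmt) : ∃ C : ℝ, 1 ≤ C ∧ ∀ X : ℂ → ℂ, DifferentiableOn ℂ X UD → InjOn X UD →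
    deriv X 0 ≠ 0 ∧ ∀ y : ℂ, ‖y‖ ≤ 1 / 2 → deriv X y ≠ 0 ∧ ‖deriv X 0‖ / C ≤ ‖deriv X y‖ ∧ ‖deriv X y‖ ≤ C * ‖deriv X 0‖ ∧
      ‖X y - X 0‖ ≤ C * ‖y‖ * ‖deriv X 0‖ ∧
      ‖(starRingEnd ℂ) (deriv X y) / deriv X y - (starRingEnd ℂ) (deriv X 0) / deriv X 0‖ ≤ C * ‖y‖ := by
  obtain ⟨C, hC, h⟩ := hKO3 (1 / 4) (by norm_num) (by norm_num)
  refine ⟨2 * C, by linarith, ?_⟩
  intro X hX hXi
  have hne : ∀ y ∈ UD, deriv X y ≠ 0 := hKO0 X UD isOpen_ball hX hXi
  have h00 : (0 : ℂ) ∈ UD := by simp [UD]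
  have h0 := hne 0 h00
  refine ⟨h0, fun y hy => ?_⟩
  have hyU : y ∈ UD := by
    rw [UD, mem_ball_zero_iff]; linarith
  have hy34 : y ∈ ball (0 : ℂ) ((1 - 1 / 4) * 1) := by
    rw [mem_ball_zero_iff]; linarith
  obtain ⟨-, h1⟩ := h X 0 1 one_pos hX hXi
  obtain ⟨a1, a2, a3, a4⟩ := h1 y hy34
  rw [sub_zero] at a3 a4
  rw [div_one] at a4
  have hp : 0 < ‖deriv X 0‖ := norm_pos_iff.2 h0
  refine ⟨hne y hyU, ?_, ?_, ?_, ?_⟩
  · rw [div_le_iff₀ (by positivity)]
    nlinarith [norm_nonneg (deriv X y)]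
  · nlinarith
  · nlinarith [norm_nonneg y, mul_nonneg (norm_nonneg y) hp.le]
  · refine (LFT_lip (hne y hyU) h0).trans ?_
    rw [div_le_iff₀ hp]
    nlinarith

/-- pull back of a nearly constant field. -/
theorem LFT_pull (hKO0 : V3.KO0_stmt) (hKO3 : V3.KO3_stmt) : ∃ C : ℝ, 1 ≤ C ∧ ∀ (X μ : ℂ → ℂ) (e : ℂ) (s : ℝ),
    DifferentiableOn ℂ X UD → InjOn X UD → Measurable μ → (∀ z, ‖μ z‖ ≤ 1) → ‖e‖ = 1 → 0 < s → s ≤ 1 / 2 →
    ∫ y in ball 0 s, ‖PBF X μ y - e * ((starRingEnd ℂ) (deriv X 0) / deriv X 0)‖ ≤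
      C / ‖deriv X 0‖ ^ 2 * (∫ z in ball (X 0) (C * s * ‖deriv X 0‖), ‖μ z - e‖) + C * s ^ 3 := by
  obtain ⟨C, hC, h⟩ := LFT_dist hKO0 hKO3
  refine ⟨4 * C ^ 2, by nlinarith, ?_⟩
  intro X μ e s hX hXi hμm hμ he hs hs2
  obtain ⟨h0, h1⟩ := h X hX hXi
  have hp : 0 < ‖deriv X 0‖ := norm_pos_iff.2 h0
  have hsub : ball (0 : ℂ) s ⊆ UD := ball_subset_ball (by linarith)
  have hhm : Measurable (fun z => ‖μ z - e‖) := (hμm.sub_const e).norm
  have hhb : ∀ z, 0 ≤ ‖μ z - e‖ ∧ ‖μ z - e‖ ≤ 2 := fun z => ⟨norm_nonneg _, by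
    refine (norm_sub_le _ _).trans ?_
    have := hμ z
    linarith⟩
  have hcv := LFT_cv X (fun z => ‖μ z - e‖) (ball 0 s) (ball (X 0) (C * s * ‖deriv X 0‖)) (‖deriv X 0‖ / C) (by positivity)
    isOpen_ball measure_ball_lt_top.ne hhm hhb (hX.mono hsub) (hXi.mono hsub) (fun y hy => by
      rw [mem_ball_zero_iff] at hy
      rw [mem_ball, dist_eq_norm]
      refine (h1 y (by linarith)).2.2.2.1.trans_lt ?_
      gcongr) (fun y hy => by
      rw [mem_ball_zero_iff] at hy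
      exact (h1 y (by linarith)).2.1)
  have hcomp : AEStronglyMeasurable (fun y => ‖μ (X y) - e‖) (volume.restrict (ball 0 s)) := by
    have hS : AEMeasurable X (volume.restrict (ball 0 s)) := ((hX.mono hsub).continuousOn.aemeasurable measurableSet_ball)
    exact (hhm.comp_aemeasurable hS).aestronglyMeasurable
  have hfin : IsFiniteMeasure (volume.restrict (ball (0 : ℂ) s)) := ⟨by rw [Measure.restrict_apply_univ]; exact measure_ball_lt_top⟩
  have hint : IntegrableOn (fun y => ‖μ (X y) - e‖) (ball 0 s) := by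
    refine Integrable.mono' (integrable_const (2 : ℝ)) hcomp ?_
    refine Eventually.of_forall fun z => ?_
    rw [Real.norm_eq_abs, abs_of_nonneg (hhb _).1]
    exact (hhb _).2
  have hle : ∫ y in ball 0 s, ‖PBF X μ y - e * ((starRingEnd ℂ) (deriv X 0) / deriv X 0)‖
      ≤ ∫ y in ball 0 s, (‖μ (X y) - e‖ + C * s) := by
    refine integral_mono_of_nonneg (Eventually.of_forall fun z => norm_nonneg _) (hint.add (integrable_const _)) ?_
    rw [EventuallyLE, ae_restrict_iff' measurableSet_ball]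
    refine Eventually.of_forall fun y hy => ?_
    rw [mem_ball_zero_iff] at hy
    obtain ⟨b1, b2, b3, b4, b5⟩ := h1 y (by linarith)
    have e1 : PBF X μ y - e * ((starRingEnd ℂ) (deriv X 0) / deriv X 0)
        = (μ (X y) - e) * ((starRingEnd ℂ) (deriv X y) / deriv X y)
          + e * ((starRingEnd ℂ) (deriv X y) / deriv X y - (starRingEnd ℂ) (deriv X 0) / deriv X 0) := by
      unfold PBF; ring
    rw [e1]
    refine (norm_add_le _ _).trans ?_
    rw [norm_mul, LFT_unit b1, mul_one, norm_mul, he, one_mul]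
    have : C * ‖y‖ ≤ C * s := by gcongr
    linarith
  refine hle.trans ?_
  rw [integral_add hint (integrable_const _), integral_const, smul_eq_mul]
  have hvol : (volume.restrict (ball (0 : ℂ) s)).real univ = Real.pi * s ^ 2 := by
    rw [measureReal_restrict_apply_univ, LFT_vol s hs]
  rw [hvol]
  have hI : 0 ≤ ∫ z in ball (X 0) (C * s * ‖deriv X 0‖), ‖μ z - e‖ := integral_nonneg fun z => norm_nonneg _
  have hI2 : ∫ z in ball (X 0) (C * s * ‖deriv X 0‖), ‖μ z - e‖ ≤ ∫ z in ball (X 0) (4 * C ^ 2 * s * ‖deriv X 0‖), ‖μ z - e‖ := by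
    refine setIntegral_mono_set ?_ (Eventually.of_forall fun z => norm_nonneg _) (ball_subset_ball ?_).eventuallyLE
    · refine Measure.integrableOn_of_bounded (M := 2) measure_ball_lt_top.ne hhm.aestronglyMeasurable ?_
      refine Eventually.of_forall fun z => ?_
      rw [Real.norm_eq_abs, abs_of_nonneg (hhb z).1]
      exact (hhb z).2
    · have : C ≤ 4 * C ^ 2 := by nlinarith
      gcongr
  have hpi : Real.pi ≤ 4 := Real.pi_le_four
  have t1 : ∫ y in ball 0 s, ‖μ (X y) - e‖ ≤ 4 * C ^ 2 / ‖deriv X 0‖ ^ 2 * ∫ z in ball (X 0) (4 * C ^ 2 * s * ‖deriv X 0‖), ‖μ z - e‖ := by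
    refine hcv.trans ?_
    have : 1 / (‖deriv X 0‖ / C) ^ 2 ≤ 4 * C ^ 2 / ‖deriv X 0‖ ^ 2 := by
      rw [div_pow, one_div, inv_div]
      gcongr
      nlinarith
    gcongr
  have t2 : Real.pi * s ^ 2 * (C * s) ≤ 4 * C ^ 2 * s ^ 3 := by
    have : Real.pi * C ≤ 4 * C ^ 2 := by nlinarith
    calc Real.pi * s ^ 2 * (C * s) = (Real.pi * C) * s ^ 3 := by ring
      _ ≤ (4 * C ^ 2) * s ^ 3 := by gcongr
  linarith

/-- push forward of a nearly constant field. -/
theorem LFT_push (hKO0 : V3.KO0_stmt) (hKO1 : V3.KO1_stmt) (hKO3 : V3.KO3_stmt) : ∃ C : ℝ, 1 ≤ C ∧ ∀ (X μ : ℂ → ℂ) (e : ℂ) (s : ℝ),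
    DifferentiableOn ℂ X UD → InjOn X UD → Measurable μ → (∀ z, ‖μ z‖ ≤ 1) → ‖e‖ = 1 → 0 < s → s ≤ 1 / 2 →
    ∫ z in ball (X 0) (s * ‖deriv X 0‖ / C), ‖μ z - e * (deriv X 0 / (starRingEnd ℂ) (deriv X 0))‖ ≤
      C * ‖deriv X 0‖ ^ 2 * ((∫ y in ball 0 s, ‖PBF X μ y - e‖) + s ^ 3) := by
  obtain ⟨C, hC, h⟩ := LFT_dist hKO0 hKO3
  obtain ⟨C1, hC1, hk1⟩ := hKO1
  refine ⟨4 * C ^ 3 * C1, ?_, ?_⟩
  · have : 1 ≤ C ^ 3 := one_le_pow₀ hC
    nlinarith
  intro X μ e s hX hXi hμm hμ he hs hs2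
  obtain ⟨h0, h1⟩ := h X hX hXi
  have hp : 0 < ‖deriv X 0‖ := norm_pos_iff.2 h0
  have hsub : ball (0 : ℂ) s ⊆ UD := ball_subset_ball (by linarith)
  set w : ℂ := deriv X 0 / (starRingEnd ℂ) (deriv X 0) with hw
  have hc0 : (starRingEnd ℂ) (deriv X 0) ≠ 0 := by
    rw [Ne, map_eq_zero]; exact h0
  have hwn : ‖w‖ = 1 := by
    rw [hw, norm_div, Complex.norm_conj, div_self hp.ne']
  have hwu : w * ((starRingEnd ℂ) (deriv X 0) / deriv X 0) = 1 := by
    rw [hw]; field_simp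
  have hhm : Measurable (fun z => ‖μ z - e * w‖) := (hμm.sub_const _).norm
  have hhb : ∀ z, 0 ≤ ‖μ z - e * w‖ ∧ ‖μ z - e * w‖ ≤ 2 := fun z => ⟨norm_nonneg _, by
    refine (norm_sub_le _ _).trans ?_
    have := hμ z
    rw [norm_mul, he, hwn]
    linarith⟩
  have himg : ball (X 0) (s * ‖deriv X 0‖ / (4 * C ^ 3 * C1)) ⊆ X '' ball 0 s := by
    refine Subset.trans (ball_subset_ball ?_) (hk1 X 0 s hs (hX.mono hsub) (hXi.mono hsub))
    have : C1 ≤ 4 * C ^ 3 * C1 := by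
      have : 1 ≤ C ^ 3 := one_le_pow₀ hC
      nlinarith
    gcongr
  have hcv := LFT_cv' X (fun z => ‖μ z - e * w‖) (ball 0 s) (ball (X 0) (s * ‖deriv X 0‖ / (4 * C ^ 3 * C1))) (C * ‖deriv X 0‖)
    isOpen_ball measure_ball_lt_top.ne hhm hhb (hX.mono hsub) (hXi.mono hsub) himg (fun y hy => by
      rw [mem_ball_zero_iff] at hy
      exact (h1 y (by linarith)).2.2.1)
  have hXm : AEMeasurable X (volume.restrict (ball 0 s)) := ((hX.mono hsub).continuousOn.aemeasurable measurableSet_ball)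
  have hfin : IsFiniteMeasure (volume.restrict (ball (0 : ℂ) s)) := ⟨by rw [Measure.restrict_apply_univ]; exact measure_ball_lt_top⟩
  have hPm : AEStronglyMeasurable (fun y => ‖PBF X μ y - e‖) (volume.restrict (ball 0 s)) := by
    have hd : Measurable (deriv X) := measurable_deriv X
    have h5 : AEMeasurable (fun y => μ (X y)) (volume.restrict (ball 0 s)) := hμm.comp_aemeasurable hXm
    have h6 : AEMeasurable (fun y => (starRingEnd ℂ) (deriv X y)) (volume.restrict (ball 0 s)) :=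
      (Complex.continuous_conj.measurable.comp hd).aemeasurable
    have h7 : AEMeasurable (fun y => PBF X μ y) (volume.restrict (ball 0 s)) := (h5.mul h6).div hd.aemeasurable
    exact ((h7.sub_const e).norm).aestronglyMeasurable
  have hPint : IntegrableOn (fun y => ‖PBF X μ y - e‖) (ball 0 s) := by
    refine Integrable.mono' (integrable_const (2 : ℝ)) hPm ?_
    refine Eventually.of_forall fun z => ?_
    rw [Real.norm_eq_abs, abs_of_nonneg (norm_nonneg _)]
    refine (norm_sub_le _ _).trans ?_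
    have := PBF_norm_le (X := X) hμ z
    linarith
  have hle : ∫ y in ball 0 s, ‖μ (X y) - e * w‖ ≤ ∫ y in ball 0 s, (‖PBF X μ y - e‖ + C * s) := by
    refine integral_mono_of_nonneg (Eventually.of_forall fun z => norm_nonneg _) (hPint.add (integrable_const _)) ?_
    rw [EventuallyLE, ae_restrict_iff' measurableSet_ball]
    refine Eventually.of_forall fun y hy => ?_
    rw [mem_ball_zero_iff] at hy
    obtain ⟨b1, b2, b3, b4, b5⟩ := h1 y (by linarith)
    have e1 : (μ (X y) - e * w) * ((starRingEnd ℂ) (deriv X y) / deriv X y)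
        = (PBF X μ y - e) - e * (w * ((starRingEnd ℂ) (deriv X y) / deriv X y - (starRingEnd ℂ) (deriv X 0) / deriv X 0)) := by
      rw [mul_sub w, hwu]
      unfold PBF; ring
    have e2 : ‖μ (X y) - e * w‖ = ‖(μ (X y) - e * w) * ((starRingEnd ℂ) (deriv X y) / deriv X y)‖ := by
      rw [norm_mul, LFT_unit b1, mul_one]
    rw [e2, e1]
    refine (norm_sub_le _ _).trans ?_
    rw [norm_mul, norm_mul, he, hwn, one_mul, one_mul]
    have : C * ‖y‖ ≤ C * s := by gcongr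
    linarith
  rw [integral_add hPint (integrable_const _), integral_const, smul_eq_mul] at hle
  have hvol : (volume.restrict (ball (0 : ℂ) s)).real univ = Real.pi * s ^ 2 := by
    rw [measureReal_restrict_apply_univ, LFT_vol s hs]
  rw [hvol] at hle
  have hI : 0 ≤ ∫ y in ball 0 s, ‖PBF X μ y - e‖ := integral_nonneg fun z => norm_nonneg _
  have hpi : Real.pi ≤ 4 := Real.pi_le_four
  refine hcv.trans ?_
  have t1 : ∫ y in ball 0 s, ‖μ (X y) - e * w‖ ≤ 4 * C * ((∫ y in ball 0 s, ‖PBF X μ y - e‖) + s ^ 3) := by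
    refine hle.trans ?_
    have a1 : Real.pi * s ^ 2 * (C * s) ≤ 4 * C * s ^ 3 := by
      calc Real.pi * s ^ 2 * (C * s) = Real.pi * (C * s ^ 3) := by ring
        _ ≤ 4 * (C * s ^ 3) := by gcongr
        _ = _ := by ring
    nlinarith
  calc (C * ‖deriv X 0‖) ^ 2 * ∫ y in ball 0 s, ‖μ (X y) - e * w‖
      ≤ (C * ‖deriv X 0‖) ^ 2 * (4 * C * ((∫ y in ball 0 s, ‖PBF X μ y - e‖) + s ^ 3)) := by gcongr
    _ = 4 * C ^ 3 * 1 * ‖deriv X 0‖ ^ 2 * ((∫ y in ball 0 s, ‖PBF X μ y - e‖) + s ^ 3) := by ring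
    _ ≤ 4 * C ^ 3 * C1 * ‖deriv X 0‖ ^ 2 * ((∫ y in ball 0 s, ‖PBF X μ y - e‖) + s ^ 3) := by gcongr

end HY
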