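import Pool.Agent.helper32.DH.NAU

/-!
# Landau: a map of the disc, `G 0 = 0`, with derivative at least `lam` at `0` has a univalent inverse branch over a ball of definite radius
-/

set_option autoImplicit false

open Complex Metric Set Filter Topology MeasureTheory
open Pool.Agent.helper98.ILF Pool.Agent.helper16.Multibrot

noncomputable section

namespace HY

/-- inverse branch over `ball 0 (lam^2/4000)`. -/
theorem LND (lam : ℝ) (hl : 0 < lam) (hl1 : lam ≤ 1) (G : ℂ → ℂ) (hG : DifferentiableOn ℂ G UD) (hGm : MapsTo G UD UD)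
    (hG0 : G 0 = 0) (hG' : lam ≤ ‖deriv G 0‖) :
    ∃ X : ℂ → ℂ, DifferentiableOn ℂ X UD ∧ InjOn X UD ∧ X 0 = 0 ∧ (∀ y ∈ UD, ‖X y‖ < 1 / 2) ∧
      ∀ y ∈ UD, G (X y) = (lam ^ 2 / 4000 : ℝ) * y := by
  have h0 : (0 : ℂ) ∈ UD := by simp [UD]
  have hUo : IsOpen UD := isOpen_ball
  set k : ℂ → ℂ := dslope G 0 with hk
  set α := deriv G 0 with hα
  have hk0 : k 0 = α := by rw [hk, dslope_same]
  have hkd : DifferentiableOn ℂ k UD := (Complex.differentiableOn_dslope (hUo.mem_nhds h0)).2 hG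
  have hgmaps : MapsTo G (ball 0 1) (closedBall (G 0) 1) := by
    intro z hz
    rw [hG0, mem_closedBall_zero_iff]
    exact (MOB_mem.1 (hGm hz)).le
  have hk1 : ∀ z ∈ UD, ‖k z‖ ≤ 1 := by
    intro z hz
    have := Complex.norm_dslope_le_div_of_mapsTo_ball hG hgmaps hz
    simpa using this
  have hα0 : α ≠ 0 := by
    intro h
    rw [h, norm_zero] at hG'
    linarith
  have hαp : 0 < ‖α‖ := norm_pos_iff.2 hα0
  have hGk : ∀ z, G z = z * k z := by
    intro z
    have := sub_smul_dslope G 0 z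
    rw [hG0] at this
    simp only [sub_zero, smul_eq_mul] at this
    rw [hk, this]
  set r : ℝ := lam / 800 with hr
  have hr0 : 0 < r := by positivity
  have hr1 : r ≤ 1 / 800 := by rw [hr]; linarith
  have hkα : ∀ z ∈ UD, ‖z‖ ≤ r → ‖k z - α‖ ≤ 2 * r := by
    intro z hz hzr
    have := NAU_sp k hkd hk1 z hz
    rw [hk0] at this
    have h1 : ‖k z - α‖ * (1 / 2) ≤ ‖k z - α‖ * (1 - ‖z‖) := by
      refine mul_le_mul_of_nonneg_left ?_ (norm_nonneg _)
      linarith
    have h2 : ‖z‖ * (1 - ‖α‖ ^ 2) ≤ r * 1 := by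
      have hα1 : ‖α‖ ≤ 1 := by rw [← hk0]; exact hk1 0 h0
      refine mul_le_mul hzr ?_ ?_ hr0.le
      · nlinarith [norm_nonneg α]
      · nlinarith [norm_nonneg α]
    linarith
  have hE : ∀ z ∈ UD, ‖z‖ ≤ r → ‖G z - α * z‖ ≤ 2 * r ^ 2 := by
    intro z hz hzr
    rw [hGk z, show z * k z - α * z = z * (k z - α) by ring, norm_mul]
    have := hkα z hz hzr
    calc ‖z‖ * ‖k z - α‖ ≤ r * (2 * r) := mul_le_mul hzr this (norm_nonneg _) hr0.le
      _ = 2 * r ^ 2 := by ring
  have hgat : ∀ z ∈ UD, DifferentiableAt ℂ G z := fun z hz => (hG z hz).differentiableAt (hUo.mem_nhds hz)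
  have hder : ∀ z ∈ ball (0 : ℂ) (r / 2), ‖deriv G z - α‖ ≤ lam / 200 := by
    intro z hz
    rw [mem_ball_zero_iff] at hz
    have hzU : z ∈ UD := MOB_mem.2 (by linarith)
    have h1 : deriv (fun w => G w - α * w) z = deriv G z - α := by
      have := ((hgat z hzU).hasDerivAt.sub ((hasDerivAt_id z).const_mul α)).deriv
      rw [mul_one] at this
      exact this
    rw [← h1]
    have hR : (0 : ℝ) < r / 2 := by positivity
    have h2 : ∀ w ∈ closedBall z (r / 2), ‖w‖ ≤ r := by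
      intro w hw
      rw [mem_closedBall, dist_eq_norm] at hw
      calc ‖w‖ = ‖z + (w - z)‖ := by congr 1; ring
        _ ≤ ‖z‖ + ‖w - z‖ := norm_add_le _ _
        _ ≤ _ := by linarith
    have h3 : DiffContOnCl ℂ (fun w => G w - α * w) (ball z (r / 2)) := by
      refine DifferentiableOn.diffContOnCl ?_
      rw [closure_ball z hR.ne']
      intro w hw
      have hwU : w ∈ UD := MOB_mem.2 (by have := h2 w hw; linarith)
      exact ((hgat w hwU).sub ((differentiableAt_id).const_mul α)).differentiableWithinAt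
    have h4 := Complex.norm_deriv_le_of_forall_mem_sphere_norm_le (C := 2 * r ^ 2) hR h3 (by
      intro w hw
      have hw9 := h2 w (sphere_subset_closedBall hw)
      exact hE w (MOB_mem.2 (by linarith)) hw9)
    refine h4.trans ?_
    rw [show 2 * r ^ 2 / (r / 2) = 4 * r by field_simp; ring, hr]
    linarith
  obtain ⟨h, hh⟩ := MPS.ROT_inv (0 : ℂ) 0 0 (r / 2) (9 / 20 * r) (2 * r ^ 2 / lam) (7 / 20 * r) (fun z => G z / α) (fun z => deriv G z / α)
    (by positivity) (by linarith) (fun w hw => by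
      have hwU : w ∈ UD := MOB_mem.2 (by rw [mem_ball_zero_iff] at hw; linarith)
      exact (hgat w hwU).hasDerivAt.div_const α)
    (fun w hw => by
      have h1 := hder w hw
      rw [show deriv G w / α - 1 = (deriv G w - α) / α by field_simp, norm_div, div_le_iff₀ hαp]
      linarith)
    (fun w hw => by
      rw [mem_ball_zero_iff] at hw
      have h1 := hE w (MOB_mem.2 (by linarith)) (by linarith)
      rw [show G w / α - w - 0 = (G w - α * w) / α by field_simp; ring, norm_div]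
      have h2 : ‖G w - α * w‖ / ‖α‖ ≤ 2 * r ^ 2 / lam := by gcongr
      exact h2)
    (by
      have h5 : 2 * r ^ 2 / lam = r / 400 := by rw [hr]; field_simp; ring
      rw [h5]
      norm_num
      linarith)
  have hcpos : (0 : ℝ) < lam ^ 2 / 4000 := by positivity
  have hv : ∀ y ∈ UD, ((lam ^ 2 / 4000 : ℝ) : ℂ) * y / α ∈ ball (0 : ℂ) (7 / 20 * r) := by
    intro y hy
    have hyn := MOB_mem.1 hy
    rw [mem_ball_zero_iff, norm_div, div_lt_iff₀ hαp, norm_mul, Complex.norm_real, Real.norm_of_nonneg hcpos.le]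
    have h6 : 7 / 20 * r * lam ≤ 7 / 20 * r * ‖α‖ := by gcongr
    refine lt_of_lt_of_le ?_ h6
    have h7 : lam ^ 2 / 4000 * ‖y‖ < lam ^ 2 / 4000 * 1 := by gcongr
    refine h7.trans_le ?_
    rw [hr]
    nlinarith
  have hinj0 : ∀ w ∈ UD, ‖w‖ < r → G w = 0 → w = 0 := by
    intro w hw hwr hGw
    rw [hGk w] at hGw
    rcases mul_eq_zero.1 hGw with h | h
    · exact h
    · exfalso
      have := hkα w hw hwr.le
      rw [h, zero_sub, norm_neg] at this
      have : lam ≤ 2 * (lam / 800) := hG'.trans (this.trans_eq (by rw [hr]))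
      linarith
  refine ⟨fun y => h (((lam ^ 2 / 4000 : ℝ) : ℂ) * y / α), ?_, ?_, ?_, ?_, ?_⟩
  · intro y hy
    have h1 : DifferentiableAt ℂ h (((lam ^ 2 / 4000 : ℝ) : ℂ) * y / α) := ((hh _ (hv y hy)).2.2).differentiableAt
    have h2 : DifferentiableAt ℂ (fun y : ℂ => ((lam ^ 2 / 4000 : ℝ) : ℂ) * y / α) y :=
      (differentiableAt_id.const_mul _).div_const α
    exact (h1.comp y h2).differentiableWithinAt
  · intro y hy y' hy' he
    have e1 := (hh _ (hv y hy)).2.1
    have e2 := (hh _ (hv y' hy')).2.1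
    simp only at he
    rw [he, e2] at e1
    have hc0 : ((lam ^ 2 / 4000 : ℝ) : ℂ) ≠ 0 := by exact_mod_cast hcpos.ne'
    have e3 : ((lam ^ 2 / 4000 : ℝ) : ℂ) * y' = ((lam ^ 2 / 4000 : ℝ) : ℂ) * y := by
      field_simp at e1 ⊢
      exact e1
    exact (mul_left_cancel₀ hc0 e3).symm
  · obtain ⟨e1, e2, -⟩ := hh _ (hv 0 h0)
    rw [mem_ball_zero_iff] at e1
    have e3 : G (h (((lam ^ 2 / 4000 : ℝ) : ℂ) * 0 / α)) = 0 := by
      have e4 : G (h (((lam ^ 2 / 4000 : ℝ) : ℂ) * 0 / α)) / α = ((lam ^ 2 / 4000 : ℝ) : ℂ) * 0 / α := e2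
      rw [div_eq_div_iff hα0 hα0] at e4
      have := mul_right_cancel₀ hα0 e4
      rw [this, mul_zero]
    exact hinj0 _ (MOB_mem.2 (by linarith)) (by linarith) e3
  · intro y hy
    have := (hh _ (hv y hy)).1
    rw [mem_ball_zero_iff] at this
    show ‖h (((lam ^ 2 / 4000 : ℝ) : ℂ) * y / α)‖ < 1 / 2
    linarith
  · intro y hy
    obtain ⟨e1, e2, -⟩ := hh _ (hv y hy)
    have e4 : G (h (((lam ^ 2 / 4000 : ℝ) : ℂ) * y / α)) / α = ((lam ^ 2 / 4000 : ℝ) : ℂ) * y / α := e2
    rw [div_eq_div_iff hα0 hα0] at e4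
    exact mul_right_cancel₀ hα0 e4

end HY
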