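import Mathlib

/-!
# Local maxima of `Re P + A |F|² + log (1 - |w|²)`
-/

set_option autoImplicit false

open Complex Metric Set Filter Topology

noncomputable section

namespace Pool.Agent.helper32.DH

/-- second derivative test at a local maximum. -/
theorem second_deriv_nonpos {φ φ' : ℝ → ℝ} {s : ℝ} (h1 : ∀ᶠ t in 𝓝 (0 : ℝ), HasDerivAt φ (φ' t) t)
    (h2 : HasDerivAt φ' s 0) (hmax : IsLocalMax φ 0) : s ≤ 0 := by
  by_contra hs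
  push Not at hs
  have hd : deriv φ =ᶠ[𝓝 0] φ' := h1.mono fun t ht => ht.deriv
  have hdd : deriv (deriv φ) 0 = s := by
    rw [hd.deriv_eq, h2.deriv]
  have h0 : deriv φ 0 = 0 := hmax.deriv_eq_zero
  have hc : ContinuousAt φ 0 := (h1.self_of_nhds).continuousAt
  have hmin : IsLocalMin φ 0 := isLocalMin_of_deriv_deriv_pos (by rw [hdd]; exact hs) h0 hc
  have hconst : φ =ᶠ[𝓝 0] fun _ => φ 0 := by
    filter_upwards [hmax, hmin] with t h3 h4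
    exact le_antisymm h3 h4
  have hd0 : deriv φ =ᶠ[𝓝 0] fun _ => 0 := by
    have := hconst.deriv
    filter_upwards [this] with t ht
    rw [ht]; simp
  have : deriv (deriv φ) 0 = 0 := by
    rw [hd0.deriv_eq]; simp
  linarith

/-- the one dimensional computation. -/
theorem line_second {w₀ e : ℂ} {P F : ℂ → ℂ} {A : ℝ} (hw : ‖w₀‖ < 1) (hP : AnalyticAt ℂ P w₀) (hF : AnalyticAt ℂ F w₀)
    (hmax : IsLocalMax (fun w => (P w).re + A * ‖F w‖ ^ 2 + Real.log (1 - ‖w‖ ^ 2)) w₀) :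
    (e ^ 2 * deriv (deriv P) w₀).re + 2 * A * (e ^ 2 * deriv (deriv F) w₀ * (starRingEnd ℂ) (F w₀)).re
      + 2 * A * ‖e‖ ^ 2 * ‖deriv F w₀‖ ^ 2 - 2 * ‖e‖ ^ 2 / (1 - ‖w₀‖ ^ 2)
      - 4 * (e * (starRingEnd ℂ) w₀).re ^ 2 / (1 - ‖w₀‖ ^ 2) ^ 2 ≤ 0 := by
  have hlin : ∀ t : ℝ, HasDerivAt (fun t : ℝ => w₀ + (t : ℂ) * e) e t := by
    intro t
    have h := (Complex.ofRealCLM.hasDerivAt (x := t)).mul_const e
    have h2 := h.const_add w₀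
    simpa using h2
  have hcont : Tendsto (fun t : ℝ => w₀ + (t : ℂ) * e) (𝓝 0) (𝓝 w₀) := by
    have := (hlin 0).continuousAt.tendsto
    simpa using this
  -- eventually analytic
  have hP1 : ∀ᶠ t : ℝ in 𝓝 0, AnalyticAt ℂ P (w₀ + (t : ℂ) * e) := hcont.eventually hP.eventually_analyticAt
  have hF1 : ∀ᶠ t : ℝ in 𝓝 0, AnalyticAt ℂ F (w₀ + (t : ℂ) * e) := hcont.eventually hF.eventually_analyticAt
  have hw1 : ∀ᶠ t : ℝ in 𝓝 0, ‖w₀ + (t : ℂ) * e‖ < 1 := by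
    have : Tendsto (fun t : ℝ => ‖w₀ + (t : ℂ) * e‖) (𝓝 0) (𝓝 ‖w₀‖) := hcont.norm
    exact this.eventually (gt_mem_nhds hw)
  have hline : ∀ (G : ℂ → ℂ) (t : ℝ), AnalyticAt ℂ G (w₀ + (t : ℂ) * e) →
      HasDerivAt (fun t : ℝ => G (w₀ + (t : ℂ) * e)) (deriv G (w₀ + (t : ℂ) * e) * e) t := by
    intro G t hG
    exact (hG.differentiableAt.hasDerivAt).comp_of_eq t (hlin t) rfl |>.congr_deriv (by ring)
  have hre : ∀ (g : ℝ → ℂ) (g' : ℂ) (t : ℝ), HasDerivAt g g' t → HasDerivAt (fun t => (g t).re) g'.re t := by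
    intro g g' t hg
    exact (Complex.reCLM.hasFDerivAt.comp_hasDerivAt t hg)
  have hconj : ∀ (g : ℝ → ℂ) (g' : ℂ) (t : ℝ), HasDerivAt g g' t →
      HasDerivAt (fun t => (starRingEnd ℂ) (g t)) ((starRingEnd ℂ) g') t := by
    intro g g' t hg
    exact (Complex.conjCLE.toContinuousLinearMap.hasFDerivAt.comp_hasDerivAt t hg)
  have hnsq : ∀ (g : ℝ → ℂ) (g' : ℂ) (t : ℝ), HasDerivAt g g' t →
      HasDerivAt (fun t => ‖g t‖ ^ 2) (2 * (g' * (starRingEnd ℂ) (g t)).re) t := by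
    intro g g' t hg
    have h1 := hre _ _ _ (hg.mul (hconj _ _ _ hg))
    refine (h1.congr_of_eventuallyEq ?_).congr_deriv ?_
    · refine Eventually.of_forall fun x => ?_
      show ‖g x‖ ^ 2 = (g x * (starRingEnd ℂ) (g x)).re
      rw [Complex.mul_conj, Complex.ofReal_re, Complex.normSq_eq_norm_sq]
    · simp only [Complex.add_re, Complex.mul_re, Complex.conj_re, Complex.conj_im]
      ring
  have hφ : ∀ᶠ t : ℝ in 𝓝 0, HasDerivAt (fun t : ℝ => (P (w₀ + (t : ℂ) * e)).re + A * ‖F (w₀ + (t : ℂ) * e)‖ ^ 2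
      + Real.log (1 - ‖w₀ + (t : ℂ) * e‖ ^ 2))
      ((deriv P (w₀ + (t : ℂ) * e) * e).re + A * (2 * (deriv F (w₀ + (t : ℂ) * e) * e * (starRingEnd ℂ) (F (w₀ + (t : ℂ) * e))).re)
        + (- (2 * (e * (starRingEnd ℂ) (w₀ + (t : ℂ) * e)).re)) / (1 - ‖w₀ + (t : ℂ) * e‖ ^ 2)) t := by
    filter_upwards [hP1, hF1, hw1] with t h1 h2 h3
    have e1 := hre _ _ _ (hline P t h1)
    have e2 := (hnsq _ _ _ (hline F t h2)).const_mul A
    have e3 := (hnsq _ _ _ (hlin t)).const_sub 1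
    have hne : (1 : ℝ) - ‖w₀ + (t : ℂ) * e‖ ^ 2 ≠ 0 := by
      have : ‖w₀ + (t : ℂ) * e‖ ^ 2 < 1 := by
        have h0 := norm_nonneg (w₀ + (t : ℂ) * e)
        nlinarith
      linarith
    have e4 := e3.log hne
    exact (e1.add e2).add e4
  have hφ2 : HasDerivAt (fun t : ℝ => (deriv P (w₀ + (t : ℂ) * e) * e).re
        + A * (2 * (deriv F (w₀ + (t : ℂ) * e) * e * (starRingEnd ℂ) (F (w₀ + (t : ℂ) * e))).re)
        + (- (2 * (e * (starRingEnd ℂ) (w₀ + (t : ℂ) * e)).re)) / (1 - ‖w₀ + (t : ℂ) * e‖ ^ 2))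
      ((e ^ 2 * deriv (deriv P) w₀).re + 2 * A * (e ^ 2 * deriv (deriv F) w₀ * (starRingEnd ℂ) (F w₀)).re
      + 2 * A * ‖e‖ ^ 2 * ‖deriv F w₀‖ ^ 2 - 2 * ‖e‖ ^ 2 / (1 - ‖w₀‖ ^ 2)
      - 4 * (e * (starRingEnd ℂ) w₀).re ^ 2 / (1 - ‖w₀‖ ^ 2) ^ 2) 0 := by
    have hz : w₀ + ((0 : ℝ) : ℂ) * e = w₀ := by simp
    have e1 := hre _ _ _ ((hline (deriv P) 0 (by rw [hz]; exact hP.deriv)).mul_const e)
    have e2 := hre _ _ _ (((hline (deriv F) 0 (by rw [hz]; exact hF.deriv)).mul_const e).mul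
      (hconj _ _ _ (hline F 0 (by rw [hz]; exact hF))))
    have e3 := hre _ _ _ ((hconj _ _ _ (hlin 0)).const_mul e)
    have e4 := (hnsq _ _ _ (hlin 0)).const_sub 1
    have hne : (1 : ℝ) - ‖w₀ + ((0 : ℝ) : ℂ) * e‖ ^ 2 ≠ 0 := by
      rw [hz]
      have : ‖w₀‖ ^ 2 < 1 := by
        have h0 := norm_nonneg w₀
        nlinarith
      linarith
    have hne' : (1 : ℝ) - ‖w₀‖ ^ 2 ≠ 0 := by rwa [hz] at hne
    have e5 := ((e3.const_mul 2).neg).div e4 hne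
    have e6 := (e1.add ((e2.const_mul 2).const_mul A)).add e5
    refine e6.congr_deriv ?_
    simp only [Pi.neg_apply]
    rw [hz]
    have k1 : (deriv (deriv P) w₀ * e * e).re = (e ^ 2 * deriv (deriv P) w₀).re := by
      congr 1; ring
    have k2 : (deriv (deriv F) w₀ * e * e * (starRingEnd ℂ) (F w₀) + deriv F w₀ * e * (starRingEnd ℂ) (deriv F w₀ * e)).re
        = (e ^ 2 * deriv (deriv F) w₀ * (starRingEnd ℂ) (F w₀)).re + ‖e‖ ^ 2 * ‖deriv F w₀‖ ^ 2 := by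
      rw [Complex.add_re, Complex.mul_conj, Complex.ofReal_re, Complex.normSq_eq_norm_sq, norm_mul]
      rw [show deriv (deriv F) w₀ * e * e * (starRingEnd ℂ) (F w₀) = e ^ 2 * deriv (deriv F) w₀ * (starRingEnd ℂ) (F w₀) by ring]
      ring
    have k3 : (e * (starRingEnd ℂ) e).re = ‖e‖ ^ 2 := by
      rw [Complex.mul_conj, Complex.ofReal_re, Complex.normSq_eq_norm_sq]
    rw [k1, k2, k3]
    field_simp
    ring
  have hmax2 : IsLocalMax (fun t : ℝ => (P (w₀ + (t : ℂ) * e)).re + A * ‖F (w₀ + (t : ℂ) * e)‖ ^ 2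
      + Real.log (1 - ‖w₀ + (t : ℂ) * e‖ ^ 2)) 0 := by
    have := hcont.eventually hmax
    filter_upwards [this] with t ht
    simpa using ht
  exact second_deriv_nonpos hφ hφ2 hmax2

/-- at a local maximum of `Re P + A |F|² + log (1 - |w|²)` the derivative of `F` is small. -/
theorem local_max {w₀ : ℂ} {P F : ℂ → ℂ} {A : ℝ} (hw : ‖w₀‖ < 1) (hP : AnalyticAt ℂ P w₀) (hF : AnalyticAt ℂ F w₀)
    (hmax : IsLocalMax (fun w => (P w).re + A * ‖F w‖ ^ 2 + Real.log (1 - ‖w‖ ^ 2)) w₀) :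
    A * ‖deriv F w₀‖ ^ 2 * (1 - ‖w₀‖ ^ 2) ^ 2 ≤ 1 := by
  have h1 := line_second (e := 1) hw hP hF hmax
  have h2 := line_second (e := I) hw hP hF hmax
  have hpos : 0 < (1 : ℝ) - ‖w₀‖ ^ 2 := by
    have : ‖w₀‖ ^ 2 < 1 := by
      have h0 := norm_nonneg w₀
      nlinarith
    linarith
  have hn : ‖w₀‖ ^ 2 = w₀.re ^ 2 + w₀.im ^ 2 := by
    rw [← Complex.normSq_eq_norm_sq, Complex.normSq_apply]; ring
  have hI : (I ^ 2 : ℂ) = -1 := I_sq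
  rw [hI] at h2
  have i1 : (I * (starRingEnd ℂ) w₀).re = w₀.im := by
    simp [Complex.mul_re]
  have i2 : ((1 : ℂ) * (starRingEnd ℂ) w₀).re = w₀.re := by simp
  have i3 : ‖(I : ℂ)‖ = 1 := Complex.norm_I
  have i4 : (-1 * deriv (deriv P) w₀).re = - (deriv (deriv P) w₀).re := by simp
  have i5 : (-1 * deriv (deriv F) w₀ * (starRingEnd ℂ) (F w₀)).re = - (deriv (deriv F) w₀ * (starRingEnd ℂ) (F w₀)).re := by
    rw [show (-1 * deriv (deriv F) w₀ * (starRingEnd ℂ) (F w₀)) = - (deriv (deriv F) w₀ * (starRingEnd ℂ) (F w₀)) by ring]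
    exact Complex.neg_re _
  rw [i1, i3, i4, i5] at h2
  rw [i2] at h1
  simp only [one_pow, one_mul, mul_one, norm_one] at h1 h2
  have h3 : 4 * A * ‖deriv F w₀‖ ^ 2 - 4 / (1 - ‖w₀‖ ^ 2) - 4 * (w₀.re ^ 2 + w₀.im ^ 2) / (1 - ‖w₀‖ ^ 2) ^ 2 ≤ 0 := by
    have : 4 * (w₀.re ^ 2 + w₀.im ^ 2) / (1 - ‖w₀‖ ^ 2) ^ 2 = 4 * w₀.re ^ 2 / (1 - ‖w₀‖ ^ 2) ^ 2 + 4 * w₀.im ^ 2 / (1 - ‖w₀‖ ^ 2) ^ 2 := by
      rw [← add_div]; ring_nf
    rw [this]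
    have h4 : 4 / (1 - ‖w₀‖ ^ 2) = 2 / (1 - ‖w₀‖ ^ 2) + 2 / (1 - ‖w₀‖ ^ 2) := by
      rw [← add_div]; norm_num
    rw [h4]
    linarith
  rw [← hn] at h3
  have h5 : 4 * A * ‖deriv F w₀‖ ^ 2 - 4 / (1 - ‖w₀‖ ^ 2) - 4 * ‖w₀‖ ^ 2 / (1 - ‖w₀‖ ^ 2) ^ 2
      = 4 * (A * ‖deriv F w₀‖ ^ 2 * (1 - ‖w₀‖ ^ 2) ^ 2 - 1) / (1 - ‖w₀‖ ^ 2) ^ 2 := by
    field_simp
    ring
  rw [h5] at h3
  have h6 : 0 < (1 - ‖w₀‖ ^ 2) ^ 2 := by positivity
  have h7 : 4 * (A * ‖deriv F w₀‖ ^ 2 * (1 - ‖w₀‖ ^ 2) ^ 2 - 1) ≤ 0 := by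
    by_contra h8
    push Not at h8
    have := div_pos h8 h6
    linarith
  linarith

end Pool.Agent.helper32.DH
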