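import Pool.Agent.helper52.HY.Spec
import Pool.Agent.helper25.HY.MOB
import Pool.Agent.helper6.MP.ROT

/-!
# A map of the disc whose hyperbolic derivative at `0` is almost `1` has a univalent inverse branch
-/

set_option autoImplicit false

open Complex Metric Set Filter Topology MeasureTheory
open Pool.Agent.helper98.ILF Pool.Agent.helper16.Multibrot

noncomputable section

namespace HY

/-- Schwarz-Pick at `0` for maps into the closed disc. -/
theorem NAU_sp (k : ℂ → ℂ) (hk : DifferentiableOn ℂ k UD) (hk1 : ∀ z ∈ UD, ‖k z‖ ≤ 1) :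
    ∀ z ∈ UD, ‖k z - k 0‖ * (1 - ‖z‖) ≤ ‖z‖ * (1 - ‖k 0‖ ^ 2) := by
  have h0 : (0 : ℂ) ∈ UD := by simp [UD]
  intro z hz
  have hzn : ‖z‖ < 1 := MOB_mem.1 hz
  -- for every `s < 1`
  have key : ∀ s : ℝ, 0 < s → s < 1 → s * ‖k z - k 0‖ ≤ ‖z‖ * ‖1 - (s : ℂ) ^ 2 * ((starRingEnd ℂ) (k 0) * k z)‖ := by
    intro s hs0 hs1
    have hsn : ∀ w ∈ UD, ‖(s : ℂ) * k w‖ < 1 := by
      intro w hw
      rw [norm_mul, Complex.norm_real, Real.norm_of_nonneg hs0.le]
      have := hk1 w hw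
      nlinarith [norm_nonneg (k w)]
    have hdiff : DifferentiableOn ℂ (fun w => T ((s : ℂ) * k 0) ((s : ℂ) * k w)) UD := by
      unfold T
      refine DifferentiableOn.div ?_ ?_ ?_
      · exact (hk.const_mul _).sub_const _
      · exact ((hk.const_mul _).const_mul _).const_sub 1
      · intro w hw
        exact MOB_ne (hsn 0 h0) (hsn w hw)
    have hmaps : MapsTo (fun w => T ((s : ℂ) * k 0) ((s : ℂ) * k w)) (ball 0 1) (closedBall 0 1) := by
      intro w hw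
      rw [mem_closedBall_zero_iff]
      exact (MOB_T_lt (hsn 0 h0) (hsn w hw)).le
    have hval : (fun w => T ((s : ℂ) * k 0) ((s : ℂ) * k w)) 0 = 0 := by
      simp [T]
    have hS := Complex.norm_le_norm_of_mapsTo_ball hdiff hmaps hval hzn
    have hne := MOB_ne (hsn 0 h0) (hsn z hz)
    have hpos : 0 < ‖1 - (starRingEnd ℂ) ((s : ℂ) * k 0) * ((s : ℂ) * k z)‖ := norm_pos_iff.2 hne
    have h1 : ‖(s : ℂ) * k z - (s : ℂ) * k 0‖ ≤ ‖z‖ * ‖1 - (starRingEnd ℂ) ((s : ℂ) * k 0) * ((s : ℂ) * k z)‖ := by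
      have : ‖T ((s : ℂ) * k 0) ((s : ℂ) * k z)‖ = ‖(s : ℂ) * k z - (s : ℂ) * k 0‖ / ‖1 - (starRingEnd ℂ) ((s : ℂ) * k 0) * ((s : ℂ) * k z)‖ := by
        simp only [T, norm_div]
      rw [this, div_le_iff₀ hpos] at hS
      exact hS
    have h2 : ‖(s : ℂ) * k z - (s : ℂ) * k 0‖ = s * ‖k z - k 0‖ := by
      rw [← mul_sub, norm_mul, Complex.norm_real, Real.norm_of_nonneg hs0.le]
    have h3 : (starRingEnd ℂ) ((s : ℂ) * k 0) * ((s : ℂ) * k z) = (s : ℂ) ^ 2 * ((starRingEnd ℂ) (k 0) * k z) := by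
      rw [map_mul, Complex.conj_ofReal]; ring
    rw [h2, h3] at h1
    exact h1
  have hlim : ‖k z - k 0‖ ≤ ‖z‖ * ‖1 - (starRingEnd ℂ) (k 0) * k z‖ := by
    have hc1 : Tendsto (fun s : ℝ => s * ‖k z - k 0‖) (𝓝[<] 1) (𝓝 (1 * ‖k z - k 0‖)) := by
      refine Tendsto.mono_left ?_ nhdsWithin_le_nhds
      exact (continuous_id.mul continuous_const).tendsto 1
    have hc2 : Tendsto (fun s : ℝ => ‖z‖ * ‖1 - (s : ℂ) ^ 2 * ((starRingEnd ℂ) (k 0) * k z)‖) (𝓝[<] 1)
        (𝓝 (‖z‖ * ‖1 - ((1 : ℝ) : ℂ) ^ 2 * ((starRingEnd ℂ) (k 0) * k z)‖)) := by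
      refine Tendsto.mono_left ?_ nhdsWithin_le_nhds
      have : Continuous (fun s : ℝ => ‖z‖ * ‖1 - (s : ℂ) ^ 2 * ((starRingEnd ℂ) (k 0) * k z)‖) := by fun_prop
      exact this.tendsto 1
    have := le_of_tendsto_of_tendsto hc1 hc2 (by
      have h4 : ∀ᶠ s : ℝ in 𝓝[<] 1, s ∈ Ioo (0 : ℝ) 1 := Ioo_mem_nhdsLT (by norm_num)
      filter_upwards [h4] with s hs
      exact key s hs.1 hs.2)
    simpa using this
  have h5 : ‖1 - (starRingEnd ℂ) (k 0) * k z‖ ≤ (1 - ‖k 0‖ ^ 2) + ‖k z - k 0‖ := by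
    have e : 1 - (starRingEnd ℂ) (k 0) * k z = ((1 - ‖k 0‖ ^ 2 : ℝ) : ℂ) - (starRingEnd ℂ) (k 0) * (k z - k 0) := by
      push_cast
      rw [← MOB_cc (k 0)]; ring
    rw [e]
    refine (norm_sub_le _ _).trans ?_
    rw [Complex.norm_real, norm_mul, Complex.norm_conj]
    have h6 := hk1 0 h0
    have h7 : 0 ≤ 1 - ‖k 0‖ ^ 2 := by nlinarith [norm_nonneg (k 0)]
    rw [Real.norm_of_nonneg h7]
    nlinarith [norm_nonneg (k z - k 0)]
  nlinarith [norm_nonneg z, norm_nonneg (k z - k 0)]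

/-- near automorphism: univalent inverse branch over `ball 0 (1/4)`. -/
theorem NAU : ∃ δ : ℝ, 0 < δ ∧ ∀ G : ℂ → ℂ, DifferentiableOn ℂ G UD → MapsTo G UD UD → ‖G 0‖ ≤ 1 / 2 →
    (1 - δ) * (1 - ‖G 0‖ ^ 2) ≤ ‖deriv G 0‖ →
    ∃ X : ℂ → ℂ, DifferentiableOn ℂ X UD ∧ InjOn X UD ∧ (∀ y ∈ UD, ‖X y‖ < 3 / 4) ∧ ∀ y ∈ UD, G (X y) = y / 4 := by
  refine ⟨1 / 20000, by norm_num, ?_⟩
  intro G hG hGm hG0 hG'
  have h0 : (0 : ℂ) ∈ UD := by simp [UD]
  have hUo : IsOpen UD := isOpen_ball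
  set a := G 0 with ha
  have haU : a ∈ UD := hGm h0
  have han : ‖a‖ < 1 := MOB_mem.1 haU
  set g : ℂ → ℂ := fun z => T a (G z) with hg
  have hgU : ∀ z ∈ UD, ‖g z‖ < 1 := fun z hz => MOB_T_lt han (MOB_mem.1 (hGm hz))
  have hgd : DifferentiableOn ℂ g UD := by
    intro z hz
    have hGz : DifferentiableAt ℂ G z := (hG z hz).differentiableAt (hUo.mem_nhds hz)
    exact ((MOB_deriv han (MOB_mem.1 (hGm hz))).differentiableAt.comp z hGz).differentiableWithinAt
  have hg0 : g 0 = 0 := by simp [hg, T, ← ha]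
  have hgder : deriv g 0 = deriv G 0 / (1 - (‖a‖ : ℂ) ^ 2) := by
    have hG0d : HasDerivAt G (deriv G 0) 0 := ((hG 0 h0).differentiableAt (hUo.mem_nhds h0)).hasDerivAt
    have h1 := MOB_deriv han (MOB_mem.1 (hGm h0))
    have h2 : HasDerivAt g (_ * deriv G 0) 0 := HasDerivAt.comp 0 h1 hG0d
    rw [h2.deriv, ← ha, MOB_cc]
    have h3 : (1 : ℂ) - (‖a‖ : ℂ) ^ 2 ≠ 0 := MOB_one han
    field_simp
  have hpos : (0 : ℝ) < 1 - ‖a‖ ^ 2 := by nlinarith [norm_nonneg a]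
  set k : ℂ → ℂ := dslope g 0 with hk
  set α := deriv g 0 with hα
  have hk0 : k 0 = α := by rw [hk, dslope_same]
  have hkd : DifferentiableOn ℂ k UD := (Complex.differentiableOn_dslope (hUo.mem_nhds h0)).2 hgd
  have hgmaps : MapsTo g (ball 0 1) (closedBall (g 0) 1) := by
    intro z hz
    rw [hg0, mem_closedBall_zero_iff]
    exact (hgU z hz).le
  have hk1 : ∀ z ∈ UD, ‖k z‖ ≤ 1 := by
    intro z hz
    have := Complex.norm_dslope_le_div_of_mapsTo_ball hgd hgmaps hz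
    simpa using this
  have hαn : ‖α‖ ≤ 1 := by rw [← hk0]; exact hk1 0 h0
  have hαl : 1 - 1 / 20000 ≤ ‖α‖ := by
    rw [hgder, norm_div]
    have : ‖(1 : ℂ) - (‖a‖ : ℂ) ^ 2‖ = 1 - ‖a‖ ^ 2 := by
      rw [show (1 : ℂ) - (‖a‖ : ℂ) ^ 2 = ((1 - ‖a‖ ^ 2 : ℝ) : ℂ) by push_cast; ring, Complex.norm_real, Real.norm_of_nonneg hpos.le]
    rw [this, le_div_iff₀ hpos]
    exact hG'
  have hα0 : α ≠ 0 := by
    intro h
    rw [h] at hαl
    norm_num at hαl
  have hαsq : 1 - ‖α‖ ^ 2 ≤ 1 / 10000 := by nlinarith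
  -- k is close to α
  have hkα : ∀ z ∈ UD, ‖z‖ ≤ 9 / 10 → ‖k z - α‖ ≤ 1 / 1000 := by
    intro z hz hz9
    have := NAU_sp k hkd hk1 z hz
    rw [hk0] at this
    have h1 : ‖k z - α‖ * (1 / 10) ≤ ‖k z - α‖ * (1 - ‖z‖) := by
      refine mul_le_mul_of_nonneg_left ?_ (norm_nonneg _)
      linarith
    have h2 : ‖z‖ * (1 - ‖α‖ ^ 2) ≤ 1 * (1 / 10000) := by
      refine mul_le_mul (by linarith) hαsq ?_ (by norm_num)
      nlinarith [norm_nonneg α]
    linarith
  have hgk : ∀ z, g z = z * k z := by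
    intro z
    have := sub_smul_dslope g 0 z
    rw [hg0] at this
    simp only [sub_zero, smul_eq_mul] at this
    rw [hk, this]
  -- E = g - α z
  have hE : ∀ z ∈ UD, ‖z‖ ≤ 9 / 10 → ‖g z - α * z‖ ≤ 1 / 1000 := by
    intro z hz hz9
    rw [hgk z, show z * k z - α * z = z * (k z - α) by ring, norm_mul]
    have := hkα z hz hz9
    nlinarith [norm_nonneg z, norm_nonneg (k z - α), MOB_mem.1 hz]
  have hgat : ∀ z ∈ UD, DifferentiableAt ℂ g z := fun z hz => (hgd z hz).differentiableAt (hUo.mem_nhds hz)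
  have hder : ∀ z ∈ ball (0 : ℂ) (3 / 4), ‖deriv g z - α‖ ≤ 1 / 140 := by
    intro z hz
    rw [mem_ball_zero_iff] at hz
    have hzU : z ∈ UD := MOB_mem.2 (by linarith)
    have h1 : deriv (fun w => g w - α * w) z = deriv g z - α := by
      have := ((hgat z hzU).hasDerivAt.sub ((hasDerivAt_id z).const_mul α)).deriv
      rw [mul_one] at this
      exact this
    rw [← h1]
    have hR : (0 : ℝ) < 3 / 20 := by norm_num
    have h2 : ∀ w ∈ closedBall z (3 / 20), ‖w‖ ≤ 9 / 10 := by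
      intro w hw
      rw [mem_closedBall, dist_eq_norm] at hw
      calc ‖w‖ = ‖z + (w - z)‖ := by congr 1; ring
        _ ≤ ‖z‖ + ‖w - z‖ := norm_add_le _ _
        _ ≤ _ := by linarith
    have h3 : DiffContOnCl ℂ (fun w => g w - α * w) (ball z (3 / 20)) := by
      refine DifferentiableOn.diffContOnCl ?_
      rw [closure_ball z hR.ne']
      intro w hw
      have hwU : w ∈ UD := MOB_mem.2 (by have := h2 w hw; linarith)
      exact ((hgat w hwU).sub ((differentiableAt_id).const_mul α)).differentiableWithinAt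
    have h4 := Complex.norm_deriv_le_of_forall_mem_sphere_norm_le (C := 1 / 1000) hR h3 (by
      intro w hw
      have hw9 := h2 w (sphere_subset_closedBall hw)
      exact hE w (MOB_mem.2 (by linarith)) hw9)
    refine h4.trans ?_
    norm_num
  -- apply the inverse lemma to g/α
  obtain ⟨h, hh⟩ := MPS.ROT_inv (0 : ℂ) 0 0 (3 / 4) (37 / 50) (1 / 990) (7 / 10) (fun z => g z / α) (fun z => deriv g z / α)
    (by norm_num) (by norm_num) (fun w hw => by
      have hwU : w ∈ UD := MOB_mem.2 (by rw [mem_ball_zero_iff] at hw; linarith)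
      exact (hgat w hwU).hasDerivAt.div_const α)
    (fun w hw => by
      have h1 := hder w hw
      rw [show deriv g w / α - 1 = (deriv g w - α) / α by field_simp, norm_div, div_le_iff₀ (norm_pos_iff.2 hα0)]
      nlinarith)
    (fun w hw => by
      rw [mem_ball_zero_iff] at hw
      have h1 := hE w (MOB_mem.2 (by linarith)) (by linarith)
      rw [show g w / α - w - 0 = (g w - α * w) / α by field_simp; ring, norm_div, div_le_iff₀ (norm_pos_iff.2 hα0)]
      nlinarith)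
    (by norm_num)
  have hq : ∀ y ∈ UD, y / 4 ∈ UD := by
    intro y hy
    rw [MOB_mem] at hy ⊢
    rw [norm_div]
    norm_num
    linarith
  have hv : ∀ y ∈ UD, T a (y / 4) / α ∈ ball (0 : ℂ) (7 / 10) := by
    intro y hy
    have hyn := MOB_mem.1 hy
    rw [mem_ball_zero_iff, norm_div, div_lt_iff₀ (norm_pos_iff.2 hα0)]
    have h1 : ‖T a (y / 4)‖ < 2 / 3 + 1 / 1000 := by
      unfold T
      rw [norm_div]
      have hy4 : ‖y / 4‖ ≤ 1 / 4 := by rw [norm_div]; norm_num; linarith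
      have hd : 0 < ‖1 - (starRingEnd ℂ) a * (y / 4)‖ := norm_pos_iff.2 (MOB_ne han (by linarith))
      rw [div_lt_iff₀ hd]
      -- |x - a|^2 = |1 - conj a x|^2 - (1-|a|^2)(1-|x|^2)
      have hid := MOB_id a (y / 4)
      have hle : ‖1 - (starRingEnd ℂ) a * (y / 4)‖ ≤ 9 / 8 := by
        refine (norm_sub_le _ _).trans ?_
        rw [norm_mul, Complex.norm_conj]
        norm_num
        nlinarith [norm_nonneg a, norm_nonneg (y/4)]
      have h3 : (3 / 4 : ℝ) * (15 / 16) ≤ (1 - ‖a‖ ^ 2) * (1 - ‖y / 4‖ ^ 2) := by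
        have e1 : (3 / 4 : ℝ) ≤ 1 - ‖a‖ ^ 2 := by nlinarith [norm_nonneg a]
        have e2 : (15 / 16 : ℝ) ≤ 1 - ‖y / 4‖ ^ 2 := by nlinarith [norm_nonneg (y / 4)]
        exact mul_le_mul e1 e2 (by norm_num) (by linarith)
      have h4 : ‖y / 4 - a‖ ^ 2 ≤ ‖1 - (starRingEnd ℂ) a * (y / 4)‖ ^ 2 - 45 / 64 := by linarith
      have h5 : ‖y / 4 - a‖ ^ 2 ≤ (2 / 3) ^ 2 * ‖1 - (starRingEnd ℂ) a * (y / 4)‖ ^ 2 := by nlinarith
      have h6 : ‖y / 4 - a‖ ≤ 2 / 3 * ‖1 - (starRingEnd ℂ) a * (y / 4)‖ := by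
        refine le_of_sq_le_sq ?_ (by positivity)
        rw [mul_pow]; exact h5
      nlinarith
    nlinarith
  refine ⟨fun y => h (T a (y / 4) / α), ?_, ?_, ?_, ?_⟩
  · intro y hy
    have h1 : DifferentiableAt ℂ h (T a (y / 4) / α) := ((hh _ (hv y hy)).2.2).differentiableAt
    have h2 : DifferentiableAt ℂ (fun y => T a (y / 4) / α) y := by
      have := (MOB_deriv han (MOB_mem.1 (hq y hy))).differentiableAt
      have h3 : DifferentiableAt ℂ (fun y : ℂ => y / 4) y := differentiableAt_id.div_const 4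
      exact (DifferentiableAt.comp y this h3).div_const α
    exact (h1.comp y h2).differentiableWithinAt
  · intro y hy y' hy' he
    have e1 := (hh _ (hv y hy)).2.1
    have e2 := (hh _ (hv y' hy')).2.1
    simp only at he
    rw [he, e2] at e1
    have e3 : T a (y' / 4) = T a (y / 4) := by
      field_simp at e1
      exact e1
    have e4 : y' / 4 = y / 4 := by
      rw [← MOB_ST han (MOB_mem.1 (hq y' hy')), ← MOB_ST han (MOB_mem.1 (hq y hy)), e3]
    have : y' = y := by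
      field_simp at e4
      exact e4
    exact this.symm
  · intro y hy
    have := (hh _ (hv y hy)).1
    rwa [mem_ball_zero_iff] at this
  · intro y hy
    obtain ⟨e1, e2, -⟩ := hh _ (hv y hy)
    rw [mem_ball_zero_iff] at e1
    set w := h (T a (y / 4) / α) with hw
    have hwU : w ∈ UD := MOB_mem.2 (by linarith)
    have e3 : g w = T a (y / 4) := by
      field_simp at e2
      exact e2
    have e4 : S a (g w) = G w := MOB_ST han (MOB_mem.1 (hGm hwU))
    rw [← e4, e3, MOB_ST han (MOB_mem.1 (hq y hy))]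

end HY
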